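import Mathlib

/-!
# Conditional expectations on a finite set with a chain of coarser and coarser partitions

`g i` labels the classes of level `i` of the finite set `S` of integers; the classes of a higher level
are unions of classes of a lower level.
-/

namespace Pool.Agent.NH18.SC

open Finset

/-- the class of `x` of level `i` -/
def cl (S : Finset ℕ) (g : ℕ → ℕ → ℕ) (i x : ℕ) : Finset ℕ := S.filter (fun y => g i y = g i x)

/-- the average of `f` over the class of `x` of level `i` -/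
noncomputable def av (S : Finset ℕ) (g : ℕ → ℕ → ℕ) (i : ℕ) (f : ℕ → ℝ) (x : ℕ) : ℝ :=
  (∑ y ∈ cl S g i x, f y) / ((cl S g i x).card : ℝ)

/-- the partitions are coarser and coarser -/
def Coarse (S : Finset ℕ) (g : ℕ → ℕ → ℕ) : Prop :=
  ∀ i, ∀ x ∈ S, ∀ y ∈ S, g i x = g i y → g (i + 1) x = g (i + 1) y

/-- `h` is constant on the classes of level `i` -/
def Meas (S : Finset ℕ) (g : ℕ → ℕ → ℕ) (i : ℕ) (h : ℕ → ℝ) : Prop :=
  ∀ x ∈ S, ∀ y ∈ S, g i x = g i y → h x = h y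

theorem coarse_le {S : Finset ℕ} {g : ℕ → ℕ → ℕ} (hc : Coarse S g) {i j : ℕ} (hij : i ≤ j) :
    ∀ x ∈ S, ∀ y ∈ S, g i x = g i y → g j x = g j y := by
  induction j, hij using Nat.le_induction with
  | base => intro x _ y _ h; exact h
  | succ j _ ih => intro x hx y hy h; exact hc j x hx y hy (ih x hx y hy h)

theorem mem_cl_self {S : Finset ℕ} {g : ℕ → ℕ → ℕ} {i x : ℕ} (hx : x ∈ S) : x ∈ cl S g i x := by
  simp [cl, hx]

theorem cl_card_pos {S : Finset ℕ} {g : ℕ → ℕ → ℕ} {i x : ℕ} (hx : x ∈ S) :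
    (0 : ℝ) < ((cl S g i x).card : ℝ) := by
  have : 0 < (cl S g i x).card := Finset.card_pos.2 ⟨x, mem_cl_self hx⟩
  exact_mod_cast this

theorem cl_eq {S : Finset ℕ} {g : ℕ → ℕ → ℕ} {i x y : ℕ} (h : g i x = g i y) :
    cl S g i x = cl S g i y := by
  simp [cl, h]

theorem av_meas (S : Finset ℕ) (g : ℕ → ℕ → ℕ) (i : ℕ) (f : ℕ → ℝ) : Meas S g i (av S g i f) := by
  intro x _ y _ h
  simp only [av, cl_eq h]

theorem Meas.mono {S : Finset ℕ} {g : ℕ → ℕ → ℕ} (hc : Coarse S g) {i j : ℕ} (hij : i ≤ j)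
    {h : ℕ → ℝ} (hh : Meas S g j h) : Meas S g i h :=
  fun x hx y hy hxy => hh x hx y hy (coarse_le hc hij x hx y hy hxy)

/-- **Averaging**: `∑ f h = ∑ (av i f) h` if `h` is constant on the classes of level `i`. -/
theorem sum_av (S : Finset ℕ) (g : ℕ → ℕ → ℕ) (i : ℕ) (f h : ℕ → ℝ) (hh : Meas S g i h) :
    ∑ x ∈ S, f x * h x = ∑ x ∈ S, av S g i f x * h x := by
  have e1 : ∀ x ∈ S, av S g i f x * h x =
      ∑ y ∈ S, if g i y = g i x then f y * h y / ((cl S g i y).card : ℝ) else 0 := by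
    intro x hx
    rw [av, ← Finset.sum_filter, Finset.sum_div, Finset.sum_mul]
    refine Finset.sum_congr rfl fun y hy => ?_
    have hy' := (Finset.mem_filter.1 hy)
    rw [cl_eq hy'.2, hh y hy'.1 x hx hy'.2]
    ring
  rw [Finset.sum_congr rfl e1, Finset.sum_comm]
  refine Finset.sum_congr rfl fun y hy => ?_
  have h1 : ∑ x ∈ S, (if g i y = g i x then f y * h y / ((cl S g i y).card : ℝ) else 0) =
      ∑ x ∈ cl S g i y, f y * h y / ((cl S g i y).card : ℝ) := by
    rw [cl, Finset.sum_filter]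
    refine Finset.sum_congr rfl fun x _ => ?_
    simp only [eq_comm]
  rw [h1, Finset.sum_const, nsmul_eq_mul]
  have := cl_card_pos (S := S) (g := g) (i := i) hy
  field_simp

/-- **Orthogonality** with a weight. -/
theorem sum_sq_sub (S : Finset ℕ) (g : ℕ → ℕ → ℕ) (hc : Coarse S g) (i j : ℕ) (hij : i ≤ j)
    (f h : ℕ → ℝ) (hh : Meas S g j h) :
    ∑ x ∈ S, (av S g i f x - av S g j f x) ^ 2 * h x =
      ∑ x ∈ S, av S g i f x ^ 2 * h x - ∑ x ∈ S, av S g j f x ^ 2 * h x := by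
  have m1 : Meas S g j (fun x => av S g j f x * h x) := by
    intro x hx y hy hxy
    simp only [av_meas S g j f x hx y hy hxy, hh x hx y hy hxy]
  have m2 : Meas S g i (fun x => av S g j f x * h x) := m1.mono hc hij
  have a1 := sum_av S g j f _ m1
  have a2 := sum_av S g i f _ m2
  have e : ∀ x, (av S g i f x - av S g j f x) ^ 2 * h x =
      av S g i f x ^ 2 * h x - 2 * (av S g i f x * (av S g j f x * h x)) +
        av S g j f x * (av S g j f x * h x) := by
    intro x; ring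
  rw [Finset.sum_congr rfl (fun x _ => e x), Finset.sum_add_distrib, Finset.sum_sub_distrib,
    ← Finset.mul_sum, ← a2, ← a1]
  have e3 : ∑ x ∈ S, av S g j f x ^ 2 * h x = ∑ x ∈ S, f x * (av S g j f x * h x) := by
    rw [a1]; exact Finset.sum_congr rfl fun x _ => by ring
  rw [e3]; ring

/-- the energy -/
noncomputable def En (S : Finset ℕ) (g : ℕ → ℕ → ℕ) (f : ℕ → ℝ) (i : ℕ) : ℝ :=
  ∑ x ∈ S, av S g i f x ^ 2

theorem En_nonneg (S : Finset ℕ) (g : ℕ → ℕ → ℕ) (f : ℕ → ℝ) (i : ℕ) : 0 ≤ En S g f i :=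
  Finset.sum_nonneg fun _ _ => sq_nonneg _

theorem En_sub (S : Finset ℕ) (g : ℕ → ℕ → ℕ) (hc : Coarse S g) (f : ℕ → ℝ) (i j : ℕ) (hij : i ≤ j) :
    ∑ x ∈ S, (av S g i f x - av S g j f x) ^ 2 = En S g f i - En S g f j := by
  have := sum_sq_sub S g hc i j hij f (fun _ => 1) (fun _ _ _ _ _ => rfl)
  simpa [En] using this

theorem En_anti (S : Finset ℕ) (g : ℕ → ℕ → ℕ) (hc : Coarse S g) (f : ℕ → ℝ) {i j : ℕ} (hij : i ≤ j) :
    En S g f j ≤ En S g f i := by
  have h1 := En_sub S g hc f i j hij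
  have h2 : 0 ≤ ∑ x ∈ S, (av S g i f x - av S g j f x) ^ 2 := Finset.sum_nonneg fun _ _ => sq_nonneg _
  linarith

end Pool.Agent.NH18.SC
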