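import Pool.Agent.NH18.SC.Stm
import Pool.Agent.H262R2.UK.Pair
import Pool.Agent.H646.Moment

/-!
# Primes modulo `Q`
-/

set_option autoImplicit false

namespace Pool.Agent.NH18.SC

open Finset

namespace Ap68

open Pool.Agent.H646 (rat)

/-! ### the classes modulo a divisor -/

theorem mem_Sq {Q y : ℕ} : y ∈ Sq Q ↔ y < Q ∧ y.Coprime Q := by
  rw [Sq, Finset.mem_filter, Finset.mem_range]

theorem cop_mod {Q p : ℕ} : (p % Q).Coprime Q ↔ p.Coprime Q := by
  rw [Nat.Coprime, Nat.Coprime, Nat.gcd_comm, Nat.gcd_comm p, Nat.gcd_comm Q (p % Q),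
    ← Nat.gcd_rec]

theorem fib_card (q Q a : ℕ) (hQ : 1 ≤ Q) (h : q ∣ Q) (ha : a.Coprime Q) :
    ((Sq Q).filter (fun y => y % q = a % q)).card * q.totient = Q.totient := by
  classical
  have hq : 1 ≤ q := Nat.pos_of_dvd_of_pos h hQ
  have : NeZero Q := ⟨by omega⟩
  have : NeZero q := ⟨by omega⟩
  have haq : a.Coprime q := Nat.Coprime.coprime_dvd_right h ha
  set ua : (ZMod q)ˣ := ZMod.unitOfCoprime a haq with hua
  have e1 : ((Sq Q).filter (fun y => y % q = a % q)).card =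
      (univ.filter (fun u : (ZMod Q)ˣ => ZMod.unitsMap h u = ua)).card := by
    refine Finset.card_bij (fun y hy => ZMod.unitOfCoprime y
      (mem_Sq.1 (Finset.mem_filter.1 hy).1).2) ?_ ?_ ?_
    · intro y hy
      have h1 := Finset.mem_filter.1 hy
      rw [Finset.mem_filter]
      refine ⟨Finset.mem_univ _, ?_⟩
      ext
      rw [ZMod.unitsMap_val, ZMod.coe_unitOfCoprime, hua, ZMod.coe_unitOfCoprime,
        ZMod.cast_natCast h]
      exact (ZMod.natCast_eq_natCast_iff' _ _ _).2 h1.2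
    · intro y hy z hz hyz
      have h1 := mem_Sq.1 (Finset.mem_filter.1 hy).1
      have h2 := mem_Sq.1 (Finset.mem_filter.1 hz).1
      have h3 := congrArg (fun u : (ZMod Q)ˣ => (u : ZMod Q)) hyz
      simp only [ZMod.coe_unitOfCoprime] at h3
      have h4 := (ZMod.natCast_eq_natCast_iff' _ _ _).1 h3
      rwa [Nat.mod_eq_of_lt h1.1, Nat.mod_eq_of_lt h2.1] at h4
    · intro u hu
      have h1 := (Finset.mem_filter.1 hu).2
      have h2 : (u : ZMod Q).val.Coprime Q := ZMod.val_coe_unit_coprime u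
      have h3 : ((u : ZMod Q).val : ZMod Q) = u := ZMod.natCast_zmod_val _
      refine ⟨(u : ZMod Q).val, ?_, ?_⟩
      · rw [Finset.mem_filter, mem_Sq]
        refine ⟨⟨ZMod.val_lt _, h2⟩, ?_⟩
        have h4 := congrArg (fun u : (ZMod q)ˣ => (u : ZMod q)) h1
        simp only [ZMod.unitsMap_val, hua, ZMod.coe_unitOfCoprime] at h4
        rw [← h3, ZMod.cast_natCast h] at h4
        exact (ZMod.natCast_eq_natCast_iff' _ _ _).1 h4
      · ext
        rw [ZMod.coe_unitOfCoprime, h3]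
  rw [e1]
  have e2 : Fintype.card (ZMod Q)ˣ = ∑ b : (ZMod q)ˣ,
      (univ.filter (fun u : (ZMod Q)ˣ => ZMod.unitsMap h u = b)).card := by
    rw [← Finset.card_univ]
    exact Finset.card_eq_sum_card_fiberwise fun _ _ => Finset.mem_univ _
  have e3 : ∀ b : (ZMod q)ˣ, (univ.filter (fun u : (ZMod Q)ˣ => ZMod.unitsMap h u = b)).card =
      (univ.filter (fun u : (ZMod Q)ˣ => ZMod.unitsMap h u = ua)).card := fun b =>
    MonoidHom.card_fiber_eq_of_mem_range _ (ZMod.unitsMap_surjective h b)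
      (ZMod.unitsMap_surjective h ua)
  rw [ZMod.card_units_eq_totient, Finset.sum_congr rfl (fun b _ => e3 b), Finset.sum_const,
    Finset.card_univ, ZMod.card_units_eq_totient, smul_eq_mul] at e2
  rw [e2, mul_comm]

theorem fib_sum (x q Q a : ℕ) (hQ : 1 ≤ Q) (h : q ∣ Q) :
    ∑ y ∈ (Sq Q).filter (fun y => y % q = a % q), pc x Q Q y = pc x Q q a := by
  symm
  rw [pc, Finset.card_eq_sum_card_fiberwise (f := fun p => p % Q)
    (t := (Sq Q).filter (fun y => y % q = a % q))]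
  · refine Finset.sum_congr rfl fun y hy => ?_
    have h1 := Finset.mem_filter.1 hy
    have h2 := (mem_Sq.1 h1.1).1
    rw [pc]
    congr 1
    ext p
    simp only [Finset.mem_filter, Nat.mod_eq_of_lt h2]
    constructor
    · rintro ⟨⟨h3, h4, h5, h6⟩, h7⟩
      exact ⟨h3, h4, h5, h7⟩
    · rintro ⟨h3, h4, h5, h7⟩
      refine ⟨⟨h3, h4, h5, ?_⟩, h7⟩
      rw [← h1.2, ← h7, Nat.mod_mod_of_dvd _ h]
  · intro p hp
    have h1 := Finset.mem_filter.1 (Finset.mem_coe.1 hp)
    rw [Finset.mem_coe, Finset.mem_filter, mem_Sq]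
    exact ⟨⟨Nat.mod_lt _ hQ, cop_mod.2 h1.2.2.1⟩, by
      rw [Nat.mod_mod_of_dvd _ h]
      exact h1.2.2.2⟩

/-! ### the energy -/

/-- the pairs of primes in the same class -/
theorem sq_le_pairs (x Q : ℕ) :
    ∑ a ∈ Sq Q, (pc x Q Q a) ^ 2 ≤
      ((((Icc 1 x).filter Nat.Prime) ×ˢ ((Icc 1 x).filter Nat.Prime)).filter
        (fun z : ℕ × ℕ => z.1 % Q = z.2 % Q)).card := by
  classical
  have e1 : ∀ a ∈ Sq Q, (pc x Q Q a) ^ 2 =
      ((((Icc 1 x).filter (fun p => p.Prime ∧ p.Coprime Q ∧ p % Q = a % Q)) ×ˢ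
        ((Icc 1 x).filter (fun p => p.Prime ∧ p.Coprime Q ∧ p % Q = a % Q)))).card := by
    intro a _
    rw [Finset.card_product, pc, sq]
  rw [Finset.sum_congr rfl e1, ← Finset.card_biUnion]
  · refine Finset.card_le_card fun z hz => ?_
    obtain ⟨a, _, ha⟩ := Finset.mem_biUnion.1 hz
    have h1 := Finset.mem_product.1 ha
    have h2 := Finset.mem_filter.1 h1.1
    have h3 := Finset.mem_filter.1 h1.2
    rw [Finset.mem_filter, Finset.mem_product, Finset.mem_filter, Finset.mem_filter]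
    exact ⟨⟨⟨h2.1, h2.2.1⟩, ⟨h3.1, h3.2.1⟩⟩, by rw [h2.2.2.2, h3.2.2.2]⟩
  · intro a ha b hb hab
    rw [Function.onFun, Finset.disjoint_left]
    intro z hz hz'
    have h1 := Finset.mem_filter.1 (Finset.mem_product.1 hz).1
    have h2 := Finset.mem_filter.1 (Finset.mem_product.1 hz').1
    apply hab
    have h3 := h1.2.2.2
    rw [h2.2.2.2, Nat.mod_eq_of_lt (mem_Sq.1 hb).1, Nat.mod_eq_of_lt (mem_Sq.1 ha).1] at h3
    exact h3.symm

/-- the number of pairs of primes in the same class by their difference -/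
theorem pairs_le (x Q : ℕ) (hQ : 1 ≤ Q) :
    ((((Icc 1 x).filter Nat.Prime) ×ˢ ((Icc 1 x).filter Nat.Prime)).filter
        (fun z : ℕ × ℕ => z.1 % Q = z.2 % Q)).card ≤
      ((Icc 1 x).filter Nat.Prime).card + 2 * ∑ k ∈ Icc 1 (x / Q),
        ((Icc 1 x).filter (fun n => (n + 0).Prime ∧ (n + k * Q).Prime)).card := by
  classical
  set Pr := (Icc 1 x).filter Nat.Prime with hPr
  set Z := (Icc 1 (x / Q)).sigma (fun k =>
    (Icc 1 x).filter (fun n => (n + 0).Prime ∧ (n + k * Q).Prime)) with hZ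
  have hZc : Z.card = ∑ k ∈ Icc 1 (x / Q),
        ((Icc 1 x).filter (fun n => (n + 0).Prime ∧ (n + k * Q).Prime)).card := by
    rw [hZ, Finset.card_sigma]
  have hsub : ((Pr ×ˢ Pr).filter (fun z : ℕ × ℕ => z.1 % Q = z.2 % Q)) ⊆
      (Pr.image (fun n => (n, n))) ∪ ((Z.image (fun s => (s.2, s.2 + s.1 * Q))) ∪
        (Z.image (fun s => (s.2 + s.1 * Q, s.2)))) := by
    rintro ⟨n, m⟩ hz
    have h1 := Finset.mem_filter.1 hz
    have h2 := Finset.mem_product.1 h1.1
    have h3 := Finset.mem_filter.1 h2.1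
    have h4 := Finset.mem_filter.1 h2.2
    have h5 := Finset.mem_Icc.1 h3.1
    have h6 := Finset.mem_Icc.1 h4.1
    have h7 : n % Q = m % Q := h1.2
    have key : ∀ u v : ℕ, u < v → u.Prime → v.Prime → 1 ≤ u → v ≤ x → u % Q = v % Q →
        ∃ k, (⟨k, u⟩ : (_ : ℕ) × ℕ) ∈ Z ∧ v = u + k * Q := by
      intro u v huv hu hv hu1 hvx hmod
      have h8 : Q ∣ v - u := (Nat.modEq_iff_dvd' huv.le).1 hmod
      obtain ⟨k, hk⟩ := h8
      have hvu : v = u + k * Q := by
        rw [mul_comm k Q, ← hk]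
        exact (Nat.add_sub_cancel' huv.le).symm
      have hk1 : 1 ≤ k := by
        rcases Nat.eq_zero_or_pos k with h | h
        · rw [h] at hvu
          omega
        · exact h
      refine ⟨k, ?_, hvu⟩
      rw [hZ, Finset.mem_sigma]
      refine ⟨Finset.mem_Icc.2 ⟨hk1, ?_⟩, Finset.mem_filter.2 ⟨Finset.mem_Icc.2 ⟨hu1, ?_⟩, hu, ?_⟩⟩
      · show k ≤ x / Q
        rw [Nat.le_div_iff_mul_le hQ]
        omega
      · show u ≤ x
        omega
      · show (u + k * Q).Prime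
        rw [← hvu]
        exact hv
    rcases lt_trichotomy n m with hlt | heq | hgt
    · obtain ⟨k, hk, hkv⟩ := key n m hlt h3.2 h4.2 h5.1 h6.2 h7
      exact Finset.mem_union_right _ (Finset.mem_union_left _
        (Finset.mem_image.2 ⟨⟨k, n⟩, hk, by rw [hkv]⟩))
    · rw [← heq]
      exact Finset.mem_union_left _ (Finset.mem_image.2 ⟨n, h2.1, rfl⟩)
    · obtain ⟨k, hk, hkv⟩ := key m n hgt h4.2 h3.2 h6.1 h5.2 h7.symm
      exact Finset.mem_union_right _ (Finset.mem_union_right _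
        (Finset.mem_image.2 ⟨⟨k, m⟩, hk, by rw [hkv]⟩))
  calc _ ≤ _ := Finset.card_le_card hsub
    _ ≤ Pr.card + (Z.card + Z.card) := by
        refine (Finset.card_union_le _ _).trans (Nat.add_le_add Finset.card_image_le ?_)
        exact (Finset.card_union_le _ _).trans
          (Nat.add_le_add Finset.card_image_le Finset.card_image_le)
    _ = _ := by rw [hZc, two_mul]

theorem rat_mul (k Q : ℕ) (hk : 1 ≤ k) (hQ : 1 ≤ Q) : rat (k * Q) ≤ rat k * rat Q := by
  have h1 : 0 < k.totient := Nat.totient_pos.2 hk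
  have h2 : 0 < Q.totient := Nat.totient_pos.2 hQ
  rw [rat, rat, rat, div_mul_div_comm, Nat.cast_mul]
  apply div_le_div_of_nonneg_left (by positivity)
  · exact_mod_cast Nat.mul_pos h1 h2
  · exact_mod_cast Nat.totient_super_multiplicative k Q

theorem rat_nonneg68 (k : ℕ) : 0 ≤ rat k := by
  rw [rat]
  positivity

theorem pi_eq (x : ℕ) : (((Icc 1 x).filter Nat.Prime).card) = Nat.primeCounting x := by
  rw [Nat.primeCounting, Nat.primeCounting', Nat.count_eq_card_filter_range]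
  congr 1
  ext p
  simp only [Finset.mem_filter, Finset.mem_Icc, Finset.mem_range]
  constructor
  · rintro ⟨h, h'⟩
    exact ⟨by omega, h'⟩
  · rintro ⟨h, h'⟩
    exact ⟨⟨h'.one_lt.le, by omega⟩, h'⟩

/-- Chebyshev's upper bound -/
theorem cheb : ∃ C > (0 : ℝ), ∃ x₀ : ℕ, ∀ x : ℕ, x₀ ≤ x →
    (((Icc 1 x).filter Nat.Prime).card : ℝ) ≤ C * x / Real.log x := by
  have h1 := Chebyshev.eventually_primeCounting_le (ε := 1) one_pos
  obtain ⟨x₀, hx₀⟩ := Filter.eventually_atTop.1 h1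
  refine ⟨Real.log 4 + 1, by positivity, ⌈x₀⌉₊, fun x hx => ?_⟩
  have h2 := hx₀ (x : ℝ) ((Nat.le_ceil _).trans (by exact_mod_cast hx))
  rw [Nat.floor_natCast] at h2
  rw [pi_eq]
  exact h2

end Ap68

open Ap68
open Pool.Agent.H646 (rat)

theorem t_apbase : S_apbase := by
  obtain ⟨C1, hC1, x1, hx1⟩ := cheb
  obtain ⟨C2, hC2, x2, hx2⟩ := Pool.Agent.H262R2.UK.pair_bound
  obtain ⟨C3, hC3, hm⟩ := Pool.Agent.H646.MomentM.rat_moment 1
  set x0 : ℕ := max x1 x2 with hx0
  refine ⟨C1 + 2 * C2 * C3 + (x0 : ℝ) ^ 2, by positivity, fun x hx Q hQ hle => ?_⟩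
  have hxR : (2 : ℝ) ≤ x := by exact_mod_cast hx
  have hxp : (0 : ℝ) < x := by linarith
  have hlog : 0 < Real.log x := Real.log_pos (by linarith)
  have hφ : (0 : ℝ) < Q.totient := by
    exact_mod_cast Nat.totient_pos.2 hQ
  have hQR : (0 : ℝ) < Q := by exact_mod_cast hQ
  have hD : (0 : ℝ) < (Q.totient : ℝ) * Real.log x ^ 2 := by positivity
  have hS : ∑ a ∈ Sq Q, ((pc x Q Q a : ℝ)) ^ 2 ≤
      (((((Icc 1 x).filter Nat.Prime) ×ˢ ((Icc 1 x).filter Nat.Prime)).filter
        (fun z : ℕ × ℕ => z.1 % Q = z.2 % Q)).card : ℝ) := by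
    exact_mod_cast sq_le_pairs x Q
  refine hS.trans ?_
  by_cases hbig : x0 ≤ x
  · have hp := pairs_le x Q hQ
    have hpR : (((((Icc 1 x).filter Nat.Prime) ×ˢ ((Icc 1 x).filter Nat.Prime)).filter
        (fun z : ℕ × ℕ => z.1 % Q = z.2 % Q)).card : ℝ) ≤
        (((Icc 1 x).filter Nat.Prime).card : ℝ) + 2 * ∑ k ∈ Icc 1 (x / Q),
        (((Icc 1 x).filter (fun n => (n + 0).Prime ∧ (n + k * Q).Prime)).card : ℝ) := by
      exact_mod_cast hp
    refine hpR.trans ?_
    have hA : (((Icc 1 x).filter Nat.Prime).card : ℝ) ≤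
        C1 * x ^ 2 / (Q.totient * Real.log x ^ 2) := by
      refine (hx1 x ((le_max_left _ _).trans hbig)).trans ?_
      rw [div_le_div_iff₀ hlog hD]
      have : C1 * x * (Q.totient * Real.log x ^ 2) =
          (C1 * x * Real.log x) * (Q.totient * Real.log x) := by ring
      rw [this]
      have : C1 * x ^ 2 * Real.log x = (C1 * x * Real.log x) * x := by ring
      rw [this]
      exact mul_le_mul_of_nonneg_left hle (by positivity)
    have hB : ∑ k ∈ Icc 1 (x / Q),
        (((Icc 1 x).filter (fun n => (n + 0).Prime ∧ (n + k * Q).Prime)).card : ℝ) ≤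
        C2 * C3 * x ^ 2 / (Q.totient * Real.log x ^ 2) := by
      calc _ ≤ ∑ k ∈ Icc 1 (x / Q), C2 * x / (Real.log x) ^ 2 * rat Q * (rat k ^ 1) := by
            refine Finset.sum_le_sum fun k hk => ?_
            have hk1 := (Finset.mem_Icc.1 hk).1
            have hkQ : 0 < k * Q := Nat.mul_pos hk1 hQ
            refine (hx2 x ((le_max_right _ _).trans hbig) 0 (k * Q) hkQ).trans ?_
            rw [Nat.sub_zero, pow_one, mul_assoc, mul_comm (rat Q)]
            exact mul_le_mul_of_nonneg_left (rat_mul k Q hk1 hQ) (by positivity)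
        _ = C2 * x / (Real.log x) ^ 2 * rat Q * ∑ k ∈ Icc 1 (x / Q), rat k ^ 1 := by
            rw [Finset.mul_sum]
        _ ≤ C2 * x / (Real.log x) ^ 2 * rat Q * (C3 * (x / Q)) := by
            refine mul_le_mul_of_nonneg_left ((hm _).trans ?_)
              (mul_nonneg (by positivity) (rat_nonneg68 Q))
            exact mul_le_mul_of_nonneg_left Nat.cast_div_le hC3.le
        _ = C2 * C3 * x ^ 2 / (Q.totient * Real.log x ^ 2) := by
            rw [rat]
            field_simp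
    calc _ ≤ C1 * x ^ 2 / (Q.totient * Real.log x ^ 2) +
          2 * (C2 * C3 * x ^ 2 / (Q.totient * Real.log x ^ 2)) := by linarith
      _ = (C1 + 2 * C2 * C3) * x ^ 2 / (Q.totient * Real.log x ^ 2) := by ring
      _ ≤ _ := by
          apply div_le_div_of_nonneg_right _ hD.le
          apply mul_le_mul_of_nonneg_right _ (by positivity)
          have : (0 : ℝ) ≤ (x0 : ℝ) ^ 2 := by positivity
          linarith
  · push Not at hbig
    have h1 : (((((Icc 1 x).filter Nat.Prime) ×ˢ ((Icc 1 x).filter Nat.Prime)).filter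
        (fun z : ℕ × ℕ => z.1 % Q = z.2 % Q)).card : ℝ) ≤ (x : ℝ) ^ 2 := by
      have h2 : ((((Icc 1 x).filter Nat.Prime) ×ˢ ((Icc 1 x).filter Nat.Prime)).filter
        (fun z : ℕ × ℕ => z.1 % Q = z.2 % Q)).card ≤ x ^ 2 := by
        refine (Finset.card_filter_le _ _).trans ?_
        rw [Finset.card_product, sq]
        have h3 : ((Icc 1 x).filter Nat.Prime).card ≤ x := by
          refine (Finset.card_filter_le _ _).trans ?_
          rw [Nat.card_Icc]
          omega
        exact Nat.mul_le_mul h3 h3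
      exact_mod_cast h2
    refine h1.trans ?_
    rw [le_div_iff₀ hD]
    have hx0R : (x : ℝ) ≤ x0 := by exact_mod_cast hbig.le
    have h4 : Real.log x ≤ x := (Real.log_le_self hxp.le)
    have h5 : (Q.totient : ℝ) * Real.log x ^ 2 ≤ (x0 : ℝ) ^ 2 := by
      calc (Q.totient : ℝ) * Real.log x ^ 2 = (Q.totient * Real.log x) * Real.log x := by ring
        _ ≤ x * x := mul_le_mul hle h4 hlog.le hxp.le
        _ ≤ x0 * x0 := mul_le_mul hx0R hx0R hxp.le (by positivity)
        _ = _ := by ring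
    calc (x : ℝ) ^ 2 * (Q.totient * Real.log x ^ 2) ≤ x ^ 2 * (x0 : ℝ) ^ 2 :=
          mul_le_mul_of_nonneg_left h5 (by positivity)
      _ ≤ (C1 + 2 * C2 * C3 + (x0 : ℝ) ^ 2) * x ^ 2 := by
          have : 0 ≤ (C1 + 2 * C2 * C3) * (x : ℝ) ^ 2 := by positivity
          nlinarith

theorem t_apfib : S_apfib := by
  intro x q Q a hQ h ha
  constructor
  · exact_mod_cast fib_card q Q a hQ h ha
  · exact_mod_cast fib_sum x q Q a hQ h

end Pool.Agent.NH18.SC
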