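import Pool.Agent.NH18.SC.Stm

/-!
# Primes in arithmetic progressions along a divisor chain: assembly
-/

namespace Pool.Agent.NH18.SC.AP

open Finset Pool.Agent.NH18.SC

/-- the class of level `i` -/
def gq (q : ℕ → ℕ) (r i a : ℕ) : ℕ := a % q (r - i)

theorem dvd_chain {q : ℕ → ℕ} (hq : ∀ i, q i ∣ q (i + 1)) {i j : ℕ} (hij : i ≤ j) : q i ∣ q j := by
  induction j, hij using Nat.le_induction with
  | base => exact dvd_rfl
  | succ j _ ih => exact ih.trans (hq j)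

theorem coarse_gq {q : ℕ → ℕ} (hq : ∀ i, q i ∣ q (i + 1)) (r : ℕ) (S : Finset ℕ) :
    Coarse S (gq q r) := by
  intro i x _ y _ h
  simp only [gq] at h ⊢
  have hd : q (r - (i + 1)) ∣ q (r - i) := dvd_chain hq (by omega)
  have h1 : x % q (r - i) % q (r - (i + 1)) = y % q (r - i) % q (r - (i + 1)) := by rw [h]
  rwa [Nat.mod_mod_of_dvd _ hd, Nat.mod_mod_of_dvd _ hd] at h1

theorem card_Sq (Q : ℕ) : (Sq Q).card = Q.totient := by
  rw [Nat.totient_eq_card_coprime, Sq]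
  congr 1
  ext a
  simp [Nat.coprime_comm]

/-- the average over a class -/
theorem av_gq (hfib : S_apfib) {q : ℕ → ℕ} (hq : ∀ i, q i ∣ q (i + 1)) {r : ℕ} (hr : 0 < q r)
    (x i a : ℕ) (ha : a.Coprime (q r)) :
    av (Sq (q r)) (gq q r) i (fun y => (pc x (q r) (q r) y : ℝ)) a * (q r).totient =
      pc x (q r) (q (r - i)) a * (q (r - i)).totient := by
  have hd : q (r - i) ∣ q r := dvd_chain hq (by omega)
  obtain ⟨h1, h2⟩ := hfib x (q (r - i)) (q r) a hr hd ha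
  have e : cl (Sq (q r)) (gq q r) i a = (Sq (q r)).filter (fun y => y % q (r - i) = a % q (r - i)) := rfl
  rw [av, e, h2]
  have hφ : (0 : ℝ) < (q r).totient := by exact_mod_cast Nat.totient_pos.2 hr
  have hc : (((Sq (q r)).filter (fun y => y % q (r - i) = a % q (r - i))).card : ℝ) ≠ 0 := by
    intro h0; rw [h0, zero_mul] at h1; linarith
  rw [← h1]; field_simp

theorem mod_mem_Sq {Q p : ℕ} (hQ : 0 < Q) (hp : p.Coprime Q) : p % Q ∈ Sq Q := by
  rw [Sq, Finset.mem_filter, Finset.mem_range]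
  refine ⟨Nat.mod_lt _ hQ, ?_⟩
  rw [Nat.Coprime, ← Nat.gcd_rec]
  exact (Nat.coprime_comm.1 hp)

theorem pc_mod {x Q q p : ℕ} (hq : q ∣ Q) : pc x Q q (p % Q) = pc x Q q p := by
  unfold pc; rw [Nat.mod_mod_of_dvd _ hq]

/-- counting -/
theorem count_ap {x Q : ℕ} (hQ : 0 < Q) (Z : ℕ → Prop) [DecidablePred Z] (W : ℕ → ℝ)
    (hW : ∀ a, 0 ≤ W a) (hZ : ∀ p, p.Prime → p ≤ x → p.Coprime Q → Z p → 1 ≤ W (p % Q)) :
    (((Icc 1 x).filter (fun p => p.Prime ∧ p.Coprime Q ∧ Z p)).card : ℝ) ≤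
      ∑ a ∈ Sq Q, (pc x Q Q a : ℝ) * W a := by
  have h1 : (((Icc 1 x).filter (fun p => p.Prime ∧ p.Coprime Q ∧ Z p)).card : ℝ) ≤
      ∑ p ∈ (Icc 1 x).filter (fun p => p.Prime ∧ p.Coprime Q), W (p % Q) := by
    have : (((Icc 1 x).filter (fun p => p.Prime ∧ p.Coprime Q ∧ Z p)).card : ℝ) =
        ∑ p ∈ (Icc 1 x).filter (fun p => p.Prime ∧ p.Coprime Q ∧ Z p), (1 : ℝ) := by simp
    rw [this]
    refine (Finset.sum_le_sum (g := fun p => W (p % Q)) fun p hp => ?_).trans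
      (Finset.sum_le_sum_of_subset_of_nonneg ?_ fun p _ _ => hW _)
    · rw [Finset.mem_filter, Finset.mem_Icc] at hp
      exact hZ p hp.2.1 hp.1.2 hp.2.2.1 hp.2.2.2
    · intro p hp
      rw [Finset.mem_filter] at hp ⊢
      exact ⟨hp.1, hp.2.1, hp.2.2.1⟩
  refine h1.trans (le_of_eq ?_)
  have h2 : ∀ p ∈ (Icc 1 x).filter (fun p => p.Prime ∧ p.Coprime Q), p % Q ∈ Sq Q := by
    intro p hp
    rw [Finset.mem_filter] at hp
    exact mod_mem_Sq hQ hp.2.2
  rw [← Finset.sum_fiberwise_of_maps_to h2]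
  refine Finset.sum_congr rfl fun a ha => ?_
  rw [Finset.sum_congr rfl (g := fun _ => W a) (fun p hp => by rw [(Finset.mem_filter.1 hp).2]),
    Finset.sum_const, nsmul_eq_mul]
  congr 2
  unfold pc
  rw [Finset.filter_filter]
  congr 1
  ext p
  have ha' : a % Q = a := Nat.mod_eq_of_lt (by
    rw [Sq, Finset.mem_filter, Finset.mem_range] at ha; exact ha.1)
  rw [Finset.mem_filter, Finset.mem_filter, ha']
  tauto

/-- the classes of `p` modulo the divisors of the chain have regular numbers of primes -/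
def GoodAP (C : ℝ) (x : ℕ) (q : ℕ → ℕ) (r : ℕ) (ε η : ℝ) (p : ℕ) : Prop :=
  (∀ i ≤ r, ε / C * (x / Real.log x) ≤ pc x (q r) (q i) p * (q i).totient ∧
    (pc x (q r) (q i) p : ℝ) * (q i).totient ≤ C / ε * (x / Real.log x)) ∧
  ∃ B : Finset ℕ, (B.card : ℝ) ≤ C / (ε ^ 2 * η ^ 2) ∧
    ∀ i i' : ℕ, i ≤ i' → i' ≤ r → (∀ k ∈ B, k ≤ i ∨ i' < k) →
      |(pc x (q r) (q i') p : ℝ) * (q i').totient - pc x (q r) (q i) p * (q i).totient| ≤
        η * (pc x (q r) (q i) p * (q i).totient)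

open scoped Classical in
theorem mainAP (hL : S_maxL) (hU : S_maxU) (hJ : S_jump) (hbase : S_apbase) (hfib : S_apfib) :
    ∃ C : ℝ, 0 < C ∧ ∀ x : ℕ, 2 ≤ x → ∀ (q : ℕ → ℕ) (r : ℕ), (∀ i, q i ∣ q (i + 1)) → 0 < q r →
      ((q r).totient : ℝ) * Real.log x ≤ x → ∀ ε : ℝ, 0 < ε → ε ≤ 1 → ∀ η : ℝ, 0 < η → η ≤ 1 →
      (((Icc 1 x).filter (fun p => p.Prime ∧ p.Coprime (q r) ∧ ¬ GoodAP C x q r ε η p)).card : ℝ) ≤
        ε * (x / Real.log x) := by
  obtain ⟨D, hD, hbase⟩ := hbase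
  refine ⟨512 * (D + 1), by positivity, ?_⟩
  intro x hx q r hq hr hφx ε hε hε1 η hη hη1
  set Q := q r with hQ
  set Lg := Real.log x with hLg
  have hx0 : (0 : ℝ) < x := by exact_mod_cast (by omega : 0 < x)
  have hLg0 : 0 < Lg := Real.log_pos (by exact_mod_cast (by omega : 1 < x))
  have hφ : (0 : ℝ) < Q.totient := by exact_mod_cast Nat.totient_pos.2 hr
  set f : ℕ → ℝ := fun y => (pc x Q Q y : ℝ) with hf
  set S := Sq Q with hS
  set g := gq q r with hg
  have hc : Coarse S g := coarse_gq hq r S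
  set E₀ := D * x ^ 2 / (Q.totient * Lg ^ 2) with hE₀
  have hE₀0 : 0 < E₀ := by positivity
  have hEn : En S g f 0 ≤ E₀ := by
    refine le_trans (le_of_eq ?_) (hbase x hx Q hr hφx)
    refine Finset.sum_congr rfl fun a ha => ?_
    have ha' : a.Coprime Q := (Finset.mem_filter.1 ha).2
    have h1 := av_gq hfib hq hr x 0 a ha'
    rw [Nat.sub_zero] at h1
    have h2 : av S g 0 f a = pc x Q Q a := mul_right_cancel₀ hφ.ne' h1
    rw [h2]
  set θ := η / 4 with hθ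
  have hθ0 : 0 < θ := by positivity
  set δ := ε * x / (4 * Lg * Q.totient) with hδ
  have hδ0 : 0 < δ := by positivity
  set Λ := 4 * D * x / (ε * Lg * Q.totient) with hΛ
  have hΛ0 : 0 < Λ := by positivity
  set M₂ := 512 * D / (ε ^ 2 * η ^ 2) with hM₂
  have hM₂0 : 0 < M₂ := by positivity
  obtain ⟨J, hJ1, hJ2⟩ := hJ S g f θ δ 0 r hc (fun y _ => by simp [hf]) hθ0
    (by rw [hθ]; linarith) hδ0 (Nat.zero_le r)
  have v1 : δ * S.card ≤ ε / 4 * (x / Lg) := by
    rw [hS, card_Sq]; refine le_of_eq ?_; rw [hδ]; field_simp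
  have v2 : E₀ / Λ ≤ ε / 4 * (x / Lg) := by
    refine le_of_eq ?_
    rw [hE₀, hΛ]; field_simp
  have v4 : (2 / (δ * θ ^ 2) * E₀) / M₂ ≤ ε / 4 * (x / Lg) := by
    refine le_of_eq ?_
    rw [hM₂, hE₀, hδ, hθ]; field_simp; norm_num
  obtain ⟨W0, hW1, hW2, hW3⟩ : ∃ W0 : ℕ → ℝ,
      (∀ a, (∀ i ∈ Icc 0 r, δ ≤ av S g i f a) → W0 a = (J a).card) ∧ (∀ a, 0 ≤ W0 a) ∧
      ∑ a ∈ S, f a * W0 a ≤ 2 / (δ * θ ^ 2) * En S g f 0 := by
    refine ⟨_, ?_, ?_, hJ2⟩
    · intro a h; simp only [if_pos h]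
    · intro a; split_ifs <;> positivity
  obtain ⟨Z1, hZ1⟩ : ∃ Z : ℕ → Prop, ∀ a, Z a ↔ ∃ i ≤ r, av S g i f a < δ := ⟨_, fun _ => Iff.rfl⟩
  obtain ⟨Z2, hZ2⟩ : ∃ Z : ℕ → Prop, ∀ a, Z a ↔ ∃ i, 0 ≤ i ∧ i ≤ r ∧ Λ < av S g i f a :=
    ⟨_, fun _ => Iff.rfl⟩
  obtain ⟨Z4, hZ4⟩ : ∃ Z : ℕ → Prop, ∀ a, Z a ↔ ((∀ i ∈ Icc 0 r, δ ≤ av S g i f a) ∧
    M₂ < ((J a).card : ℝ)) := ⟨_, fun _ => Iff.rfl⟩
  have e1 : (((Icc 1 x).filter (fun p => p.Prime ∧ p.Coprime Q ∧ Z1 (p % Q))).card : ℝ) ≤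
      ε / 4 * (x / Lg) := by
    have h1 := hL S g f δ r hc hδ0.le
    have h2 := count_ap (x := x) hr (fun p => Z1 (p % Q))
      (fun a => if Z1 a then 1 else 0)
      (fun a => by split_ifs <;> norm_num)
      (fun p _ _ _ hp => by rw [if_pos hp])
    refine h2.trans (le_trans (le_of_eq ?_) (h1.trans v1))
    rw [Finset.sum_filter]
    refine Finset.sum_congr rfl fun a _ => ?_
    by_cases h : Z1 a
    · rw [if_pos h, if_pos ((hZ1 a).1 h), mul_one]
    · rw [if_neg h, if_neg (fun h' => h ((hZ1 a).2 h')), mul_zero]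
  have e2 : (((Icc 1 x).filter (fun p => p.Prime ∧ p.Coprime Q ∧ Z2 (p % Q))).card : ℝ) ≤
      ε / 4 * (x / Lg) := by
    have h1 := hU S g f Λ 0 r hc hΛ0
    have h2 := count_ap (x := x) hr (fun p => Z2 (p % Q))
      (fun a => if Z2 a then 1 else 0)
      (fun a => by split_ifs <;> norm_num)
      (fun p _ _ _ hp => by rw [if_pos hp])
    refine h2.trans (le_trans (le_of_eq ?_) ((h1.trans ?_).trans v2))
    · rw [Finset.sum_filter]
      refine Finset.sum_congr rfl fun a _ => ?_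
      by_cases h : Z2 a
      · rw [if_pos h, if_pos ((hZ2 a).1 h), mul_one]
      · rw [if_neg h, if_neg (fun h' => h ((hZ2 a).2 h')), mul_zero]
    · exact div_le_div_of_nonneg_right hEn hΛ0.le
  have e4 : (((Icc 1 x).filter (fun p => p.Prime ∧ p.Coprime Q ∧ Z4 (p % Q))).card : ℝ) ≤
      ε / 4 * (x / Lg) := by
    refine le_trans ?_ v4
    have h2 := count_ap (x := x) hr (fun p => Z4 (p % Q))
      (fun a => W0 a / M₂)
      (fun a => div_nonneg (hW2 a) hM₂0.le)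
      (fun p _ _ _ hp => by
        have hp' := (hZ4 _).1 hp
        rw [hW1 _ hp'.1, le_div_iff₀ hM₂0]; linarith [hp'.2])
    refine h2.trans ?_
    have h3 : ∑ a ∈ Sq Q, (pc x Q Q a : ℝ) * (W0 a / M₂) = (∑ a ∈ S, f a * W0 a) / M₂ := by
      rw [Finset.sum_div]; exact Finset.sum_congr rfl fun a _ => by simp only [hf]; ring
    rw [h3]
    refine div_le_div_of_nonneg_right (hW3.trans ?_) hM₂0.le
    exact mul_le_mul_of_nonneg_left hEn (by positivity)
  have hsub : (Icc 1 x).filter (fun p => p.Prime ∧ p.Coprime Q ∧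
      ¬ GoodAP (512 * (D + 1)) x q r ε η p) ⊆
      (Icc 1 x).filter (fun p => p.Prime ∧ p.Coprime Q ∧ Z1 (p % Q)) ∪
      ((Icc 1 x).filter (fun p => p.Prime ∧ p.Coprime Q ∧ Z2 (p % Q)) ∪
      (Icc 1 x).filter (fun p => p.Prime ∧ p.Coprime Q ∧ Z4 (p % Q))) := by
    intro p hp
    rw [Finset.mem_filter] at hp
    obtain ⟨hp1, hp2, hpQ, hp3⟩ := hp
    by_contra hcon
    rw [Finset.mem_union, Finset.mem_union, Finset.mem_filter, Finset.mem_filter,
      Finset.mem_filter] at hcon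
    push Not at hcon
    obtain ⟨k1, k2, k3⟩ := hcon
    have k1' : ∀ i ≤ r, δ ≤ av S g i f (p % Q) := by
      intro i hi
      by_contra h
      exact k1 hp1 hp2 hpQ ((hZ1 _).2 ⟨i, hi, not_le.1 h⟩)
    have k2' : ∀ i, 0 ≤ i → i ≤ r → av S g i f (p % Q) ≤ Λ := by
      intro i hi0 hi
      by_contra h
      exact k2 hp1 hp2 hpQ ((hZ2 _).2 ⟨i, hi0, hi, not_le.1 h⟩)
    have k3' : ((J (p % Q)).card : ℝ) ≤ M₂ := by
      by_contra h
      exact k3 hp1 hp2 hpQ ((hZ4 _).2 ⟨fun i hi => k1' i (Finset.mem_Icc.1 hi).2, not_le.1 h⟩)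
    have hpS : p % Q ∈ S := mod_mem_Sq hr hpQ
    have hpc : (p % Q).Coprime Q := (Finset.mem_filter.1 hpS).2
    -- the average at the class of the index i
    have hav : ∀ i ≤ r, av S g (r - i) f (p % Q) * Q.totient = pc x Q (q i) p * (q i).totient := by
      intro i hi
      have h1 := av_gq hfib hq hr x (r - i) (p % Q) hpc
      have h2 : r - (r - i) = i := by omega
      rw [h2, pc_mod (dvd_chain hq hi)] at h1
      exact h1
    refine hp3 ⟨?_, (J (p % Q)).image (fun k => r - k), ?_, ?_⟩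
    · intro i hi
      rw [← hav i hi]
      constructor
      · have h1 : ε / (512 * (D + 1)) * (x / Lg) ≤ δ * Q.totient := by
          have h2 : δ * Q.totient = ε / 4 * (x / Lg) := by rw [hδ]; field_simp
          rw [h2]
          refine mul_le_mul_of_nonneg_right ?_ (by positivity)
          exact div_le_div_of_nonneg_left hε.le (by norm_num) (by linarith)
        exact h1.trans (mul_le_mul_of_nonneg_right (k1' (r - i) (by omega)) hφ.le)
      · have h1 : Λ * Q.totient ≤ 512 * (D + 1) / ε * (x / Lg) := by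
          have h2 : Λ * Q.totient = 4 * D / ε * (x / Lg) := by rw [hΛ]; field_simp
          rw [h2]
          refine mul_le_mul_of_nonneg_right ?_ (by positivity)
          exact div_le_div_of_nonneg_right (by linarith) hε.le
        exact (mul_le_mul_of_nonneg_right (k2' (r - i) (Nat.zero_le _) (by omega)) hφ.le).trans h1
    · have h1 : (((J (p % Q)).image (fun k => r - k)).card : ℝ) ≤ (J (p % Q)).card := by
        exact_mod_cast Finset.card_image_le
      refine h1.trans (k3'.trans ?_)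
      rw [hM₂]
      exact div_le_div_of_nonneg_right (by linarith) (by positivity)
    · intro i i' hii' hi'r hB
      have h1 := hJ1 (p % Q) hpS (r - i') (r - i) (Nat.zero_le _) (by omega) (by omega) (by
        intro k hk
        have := hB (r - k) (Finset.mem_image.2 ⟨k, hk, rfl⟩)
        omega)
      rw [← hav i' hi'r, ← hav i (hii'.trans hi'r), ← sub_mul, abs_mul, abs_of_pos hφ]
      have h2 := mul_le_mul_of_nonneg_right h1 hφ.le
      refine h2.trans (le_of_eq ?_)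
      rw [hθ]; ring
  have h1 := Finset.card_le_card hsub
  have h2 := h1.trans (Finset.card_union_le _ _)
  have h3 := Finset.card_union_le
    ((Icc 1 x).filter (fun p => p.Prime ∧ p.Coprime Q ∧ Z2 (p % Q)))
    ((Icc 1 x).filter (fun p => p.Prime ∧ p.Coprime Q ∧ Z4 (p % Q)))
  have h4 : (((Icc 1 x).filter (fun p => p.Prime ∧ p.Coprime Q ∧
      ¬ GoodAP (512 * (D + 1)) x q r ε η p)).card : ℝ) ≤
      ((Icc 1 x).filter (fun p => p.Prime ∧ p.Coprime Q ∧ Z1 (p % Q))).card +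
      (((Icc 1 x).filter (fun p => p.Prime ∧ p.Coprime Q ∧ Z2 (p % Q))).card +
      ((Icc 1 x).filter (fun p => p.Prime ∧ p.Coprime Q ∧ Z4 (p % Q))).card) := by
    exact_mod_cast h2.trans (Nat.add_le_add_left h3 _)
  have hNL : 0 < ε * (x / Lg) := by positivity
  refine (h4.trans (add_le_add e1 (add_le_add e2 e4))).trans ?_
  linarith

end Pool.Agent.NH18.SC.AP
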