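import Pool.Agent.NH18.SC.Stm

/-!
# Project SC: the energy decrement over the levels
-/

set_option autoImplicit false

namespace Pool.Agent.NH18.SC

open Finset

namespace BadM

theorem tele (e : ℕ → ℝ) (m i₀ R : ℕ) (h : i₀ ≤ R) :
    ∑ i ∈ Icc i₀ R, (e (i + m) - e (i + m + 1)) = e (i₀ + m) - e (R + m + 1) := by
  induction R, h using Nat.le_induction with
  | base => simp
  | succ R hR ih =>
    rw [Finset.sum_Icc_succ_top (by omega), ih]
    have e1 : R + 1 + m = R + m + 1 := by ring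
    rw [e1]
    ring

theorem shift (e : ℕ → ℝ) (he0 : ∀ i, 0 ≤ e i) (he : ∀ i j, i ≤ j → e j ≤ e i) (i₀ R : ℕ)
    (m : ℕ) : ∑ i ∈ Icc i₀ R, (e i - e (i + m)) ≤ m * e i₀ := by
  induction m with
  | zero => simp
  | succ m ih =>
    have e1 : ∑ i ∈ Icc i₀ R, (e i - e (i + (m + 1))) =
        ∑ i ∈ Icc i₀ R, (e i - e (i + m)) + ∑ i ∈ Icc i₀ R, (e (i + m) - e (i + m + 1)) := by
      rw [← Finset.sum_add_distrib]
      refine Finset.sum_congr rfl fun i _ => ?_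
      rw [← add_assoc]
      ring
    have e2 : ∑ i ∈ Icc i₀ R, (e (i + m) - e (i + m + 1)) ≤ e i₀ := by
      by_cases h : i₀ ≤ R
      · rw [tele e m i₀ R h]
        have h1 := he0 (R + m + 1)
        have h2 := he i₀ (i₀ + m) (Nat.le_add_right _ _)
        linarith
      · rw [Finset.Icc_eq_empty h, Finset.sum_empty]
        exact he0 i₀
    rw [e1]
    push_cast
    linarith

open scoped Classical in
/-- the indicator of the bad points -/
noncomputable def hh (S : Finset ℕ) (g : ℕ → ℕ → ℕ) (f : ℕ → ℝ) (θ δ : ℝ) (m i x : ℕ) : ℝ :=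
  if Bad S g f θ m i x ∧ δ ≤ av S g (i + m) f x then 1 else 0

theorem hh_meas (S : Finset ℕ) (g : ℕ → ℕ → ℕ) (f : ℕ → ℝ) (θ δ : ℝ) (m i : ℕ) :
    Meas S g (i + m) (hh S g f θ δ m i) := by
  intro x hx x' hx' h
  have h1 : av S g (i + m) f x = av S g (i + m) f x' := by
    unfold av
    rw [cl_eq h]
  have h2 : Bad S g f θ m i x ↔ Bad S g f θ m i x' := by
    unfold Bad
    rw [h, h1]
  have h3 : (Bad S g f θ m i x ∧ δ ≤ av S g (i + m) f x) ↔
      (Bad S g f θ m i x' ∧ δ ≤ av S g (i + m) f x') := by rw [h2, h1]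
  unfold hh
  by_cases h4 : Bad S g f θ m i x ∧ δ ≤ av S g (i + m) f x
  · rw [if_pos h4, if_pos (h3.1 h4)]
  · rw [if_neg h4, if_neg (fun h5 => h4 (h3.2 h5))]

theorem hh_nonneg (S : Finset ℕ) (g : ℕ → ℕ → ℕ) (f : ℕ → ℝ) (θ δ : ℝ) (m i x : ℕ) :
    0 ≤ hh S g f θ δ m i x := by
  unfold hh
  split_ifs <;> norm_num

theorem hh_le (S : Finset ℕ) (g : ℕ → ℕ → ℕ) (f : ℕ → ℝ) (θ δ : ℝ) (m i x : ℕ) :
    hh S g f θ δ m i x ≤ 1 := by
  unfold hh
  split_ifs <;> norm_num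

theorem point (S : Finset ℕ) (g : ℕ → ℕ → ℕ) (f : ℕ → ℝ) (θ δ Q : ℝ) (m i : ℕ) (hc : Coarse S g)
    (hθ : 0 < θ) (hδ : 0 < δ) (hQ : 0 < Q)
    (hcard : ∀ y ∈ S, ((cl S g (i + m) y).card : ℝ) ≤ Q * (cl S g i y).card) (x : ℕ) (hx : x ∈ S)
    (hb : Bad S g f θ m i x) (hd : δ ≤ av S g (i + m) f x) :
    av S g (i + m) f x ≤ Q / (δ * θ ^ 2) *
      av S g (i + m) (fun z => (av S g i f z - av S g (i + m) f z) ^ 2) x := by
  obtain ⟨y, hy, hgy, hlt⟩ := hb
  set ρ : ℝ := av S g (i + m) f x with hρ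
  set D : ℕ → ℝ := fun z => (av S g i f z - av S g (i + m) f z) ^ 2 with hD
  have hρ0 : 0 < ρ := hδ.trans_le hd
  have hcx : (0 : ℝ) < ((cl S g (i + m) x).card : ℝ) := cl_card_pos hx
  have hcy : (0 : ℝ) < ((cl S g i y).card : ℝ) := cl_card_pos hy
  have hcl : cl S g (i + m) y = cl S g (i + m) x := cl_eq hgy
  have hsub : cl S g i y ⊆ cl S g (i + m) x := by
    intro z hz
    rw [cl, mem_filter] at hz ⊢
    refine ⟨hz.1, ?_⟩
    rw [← hgy]
    exact coarse_le hc (Nat.le_add_right _ _) z hz.1 y hy hz.2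
  have hDz : ∀ z ∈ cl S g i y, θ ^ 2 * ρ ^ 2 ≤ D z := by
    intro z hz
    have hz' := mem_filter.1 hz
    have a1 : av S g i f z = av S g i f y := by
      unfold av
      rw [cl_eq hz'.2]
    have a2 : av S g (i + m) f z = ρ := by
      have : z ∈ cl S g (i + m) x := hsub hz
      rw [hρ]
      unfold av
      rw [cl_eq (mem_filter.1 this).2]
    simp only [hD]
    rw [a1, a2]
    have h1 : 0 ≤ θ * ρ := by positivity
    calc θ ^ 2 * ρ ^ 2 = (θ * ρ) ^ 2 := by ring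
      _ ≤ |av S g i f y - ρ| ^ 2 := pow_le_pow_left₀ h1 hlt.le 2
      _ = (av S g i f y - ρ) ^ 2 := sq_abs _
  have hsum : ((cl S g i y).card : ℝ) * (θ ^ 2 * ρ ^ 2) ≤ ∑ z ∈ cl S g (i + m) x, D z := by
    calc ((cl S g i y).card : ℝ) * (θ ^ 2 * ρ ^ 2) = ∑ _z ∈ cl S g i y, θ ^ 2 * ρ ^ 2 := by
          rw [sum_const, nsmul_eq_mul]
      _ ≤ ∑ z ∈ cl S g i y, D z := sum_le_sum hDz
      _ ≤ ∑ z ∈ cl S g (i + m) x, D z :=
          sum_le_sum_of_subset_of_nonneg hsub fun z _ _ => sq_nonneg _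
  have hcard' := hcard y hy
  rw [hcl] at hcard'
  have hav : θ ^ 2 * ρ ^ 2 / Q ≤ av S g (i + m) D x := by
    unfold av
    rw [div_le_div_iff₀ hQ hcx]
    calc θ ^ 2 * ρ ^ 2 * ((cl S g (i + m) x).card : ℝ)
        ≤ θ ^ 2 * ρ ^ 2 * (Q * (cl S g i y).card) := by gcongr
      _ = ((cl S g i y).card : ℝ) * (θ ^ 2 * ρ ^ 2) * Q := by ring
      _ ≤ (∑ z ∈ cl S g (i + m) x, D z) * Q := by gcongr
  calc ρ = ρ * 1 := (mul_one _).symm
    _ ≤ ρ * (ρ / δ) := by
        gcongr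
        rw [le_div_iff₀ hδ, one_mul]
        exact hd
    _ = Q / (δ * θ ^ 2) * (θ ^ 2 * ρ ^ 2 / Q) := by field_simp
    _ ≤ Q / (δ * θ ^ 2) * av S g (i + m) D x := by gcongr

end BadM

open BadM in
theorem t_badm : S_badm := by
  intro S g f θ δ Q m i₀ R hc hθ hδ hQ hcard
  classical
  have e1 : ∀ x, (((Icc i₀ R).filter
      (fun i => Bad S g f θ m i x ∧ δ ≤ av S g (i + m) f x)).card : ℝ) =
      ∑ i ∈ Icc i₀ R, hh S g f θ δ m i x := by
    intro x
    unfold hh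
    rw [card_filter]
    push_cast
    refine sum_congr rfl fun i _ => ?_
    congr
  have e2 : ∑ x ∈ S, f x * ((Icc i₀ R).filter
      (fun i => Bad S g f θ m i x ∧ δ ≤ av S g (i + m) f x)).card =
      ∑ i ∈ Icc i₀ R, ∑ x ∈ S, f x * hh S g f θ δ m i x := by
    rw [sum_comm]
    refine sum_congr rfl fun x _ => ?_
    rw [← mul_sum, ← e1 x]
  have e3 : ∀ i ∈ Icc i₀ R, ∑ x ∈ S, f x * hh S g f θ δ m i x ≤
      Q / (δ * θ ^ 2) * (En S g f i - En S g f (i + m)) := by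
    intro i hi
    have hiR : i ≤ R := (mem_Icc.1 hi).2
    rw [sum_av S g (i + m) f _ (hh_meas S g f θ δ m i),
      ← En_sub S g hc f i (i + m) (Nat.le_add_right _ _)]
    have hD := sum_av S g (i + m) (fun z => (av S g i f z - av S g (i + m) f z) ^ 2)
      (fun _ => 1) (fun _ _ _ _ _ => rfl)
    simp only [mul_one] at hD
    rw [hD, mul_sum]
    refine sum_le_sum fun x hx => ?_
    have hav0 : 0 ≤ av S g (i + m) (fun z => (av S g i f z - av S g (i + m) f z) ^ 2) x := by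
      unfold av
      exact div_nonneg (sum_nonneg fun z _ => sq_nonneg _) (Nat.cast_nonneg _)
    have hK : 0 ≤ Q / (δ * θ ^ 2) := by positivity
    by_cases h : Bad S g f θ m i x ∧ δ ≤ av S g (i + m) f x
    · unfold hh
      rw [if_pos h, mul_one]
      exact point S g f θ δ Q m i hc hθ hδ hQ (fun y hy => hcard i hiR y hy) x hx h.1 h.2
    · unfold hh
      rw [if_neg h, mul_zero]
      exact mul_nonneg hK hav0
  have e4 : ∑ i ∈ Icc i₀ R, Q / (δ * θ ^ 2) * (En S g f i - En S g f (i + m)) ≤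
      Q / (δ * θ ^ 2) * m * En S g f i₀ := by
    rw [← mul_sum, mul_assoc]
    have hK : 0 ≤ Q / (δ * θ ^ 2) := by positivity
    exact mul_le_mul_of_nonneg_left
      (shift (En S g f) (En_nonneg S g f) (fun i j hij => En_anti S g hc f hij) i₀ R m) hK
  refine le_trans (le_of_eq ?_) ((sum_le_sum e3).trans e4)
  rw [← e2]

end Pool.Agent.NH18.SC
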