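import Pool.Agent.NH18.SC.Stm
import Pool.Agent.H262R2.UK.Pair
import Pool.Agent.H646.Moment

/-!
# SC-4 (project of helper18): the energy of the primes at the scale `log N`. By helper89.
-/

namespace Pool.Agent.NH18.SC

open Finset

namespace BaseH89

theorem pf_nonneg (X s n : ℕ) : 0 ≤ pf X s n := by
  unfold pf; split_ifs <;> norm_num

theorem pf_le_one (X s n : ℕ) : pf X s n ≤ 1 := by
  unfold pf; split_ifs <;> norm_num

theorem card_cl {T j x : ℕ} (hj : j ≤ T) (hx : x ∈ range (2 ^ T)) :
    2 ^ j ≤ (cl (range (2 ^ T)) gI j x).card := by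
  have hD : 0 < 2 ^ j := by positivity
  have hx' := Finset.mem_range.1 hx
  have hT : 2 ^ T = 2 ^ (T - j) * 2 ^ j := by rw [← pow_add, Nat.sub_add_cancel hj]
  have h1 : x / 2 ^ j < 2 ^ (T - j) := by
    rw [Nat.div_lt_iff_lt_mul hD, ← hT]; exact hx'
  have hsub : Ico (x / 2 ^ j * 2 ^ j) (x / 2 ^ j * 2 ^ j + 2 ^ j) ⊆ cl (range (2 ^ T)) gI j x := by
    intro y hy
    rw [Finset.mem_Ico] at hy
    unfold cl gI
    rw [Finset.mem_filter, Finset.mem_range]
    constructor
    · calc y < (x / 2 ^ j + 1) * 2 ^ j := by rw [add_mul, one_mul]; exact hy.2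
        _ ≤ 2 ^ (T - j) * 2 ^ j := Nat.mul_le_mul_right _ h1
        _ = 2 ^ T := hT.symm
    · apply Nat.div_eq_of_lt_le
      · exact hy.1
      · rw [Nat.succ_mul]; exact hy.2
  calc 2 ^ j = (Ico (x / 2 ^ j * 2 ^ j) (x / 2 ^ j * 2 ^ j + 2 ^ j)).card := by
        rw [Nat.card_Ico]; omega
    _ ≤ _ := Finset.card_le_card hsub

theorem av_nonneg (S : Finset ℕ) (g : ℕ → ℕ → ℕ) (i X s x : ℕ) : 0 ≤ av S g i (pf X s) x := by
  unfold av
  exact div_nonneg (Finset.sum_nonneg fun _ _ => pf_nonneg _ _ _) (Nat.cast_nonneg _)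

theorem av_le_one (S : Finset ℕ) (g : ℕ → ℕ → ℕ) (i X s x : ℕ) : av S g i (pf X s) x ≤ 1 := by
  unfold av
  apply div_le_one_of_le₀ _ (Nat.cast_nonneg _)
  calc ∑ y ∈ cl S g i x, pf X s y ≤ ∑ _y ∈ cl S g i x, (1 : ℝ) :=
        Finset.sum_le_sum fun _ _ => pf_le_one _ _ _
    _ = _ := by simp

/-- the sum over the pairs in the same block -/
theorem pairs_le (S : Finset ℕ) (f : ℕ → ℝ) (hf : ∀ n, 0 ≤ f n) (j : ℕ) :
    ∑ x ∈ S, f x * ∑ y ∈ cl S gI j x, f y ≤
      2 * ∑ h ∈ range (2 ^ j), ∑ n ∈ S, f n * f (n + h) := by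
  have hD : 0 < 2 ^ j := by positivity
  have hA : ∀ x ∈ S, ∑ y ∈ S, (if x ≤ y ∧ y < x + 2 ^ j then f x * f y else 0) ≤
      ∑ h ∈ range (2 ^ j), f x * f (x + h) := by
    intro x _
    rw [← Finset.sum_filter]
    have h2 : ∑ h ∈ range (2 ^ j), f x * f (x + h) = ∑ y ∈ Ico x (x + 2 ^ j), f x * f y := by
      rw [Finset.sum_Ico_eq_sum_range, Nat.add_sub_cancel_left]
    rw [h2]
    apply Finset.sum_le_sum_of_subset_of_nonneg
    · intro y hy
      rw [Finset.mem_filter] at hy
      rw [Finset.mem_Ico]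
      exact hy.2
    · intro y _ _
      exact mul_nonneg (hf _) (hf _)
  have hA' : ∑ x ∈ S, ∑ y ∈ S, (if x ≤ y ∧ y < x + 2 ^ j then f x * f y else 0) ≤
      ∑ h ∈ range (2 ^ j), ∑ n ∈ S, f n * f (n + h) := by
    rw [Finset.sum_comm (s := range (2 ^ j))]
    exact Finset.sum_le_sum hA
  have hB : ∑ x ∈ S, ∑ y ∈ S, (if y ≤ x ∧ x < y + 2 ^ j then f x * f y else 0) =
      ∑ x ∈ S, ∑ y ∈ S, (if x ≤ y ∧ y < x + 2 ^ j then f x * f y else 0) := by
    rw [Finset.sum_comm]
    refine Finset.sum_congr rfl fun x _ => Finset.sum_congr rfl fun y _ => ?_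
    rw [mul_comm (f y) (f x)]
  calc ∑ x ∈ S, f x * ∑ y ∈ cl S gI j x, f y
      ≤ ∑ x ∈ S, ∑ y ∈ S, ((if x ≤ y ∧ y < x + 2 ^ j then f x * f y else 0) +
          (if y ≤ x ∧ x < y + 2 ^ j then f x * f y else 0)) := by
        refine Finset.sum_le_sum fun x _ => ?_
        unfold cl
        rw [Finset.mul_sum, Finset.sum_filter]
        refine Finset.sum_le_sum fun y _ => ?_
        have h0 : 0 ≤ f x * f y := mul_nonneg (hf _) (hf _)
        by_cases hxy : gI j y = gI j x
        · rw [if_pos hxy]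
          unfold gI at hxy
          have h1 := Nat.div_add_mod x (2 ^ j)
          have h2 := Nat.div_add_mod y (2 ^ j)
          have h3 := Nat.mod_lt x hD
          have h4 := Nat.mod_lt y hD
          rw [hxy] at h2
          rcases le_total x y with h | h
          · rw [if_pos (show x ≤ y ∧ y < x + 2 ^ j from ⟨h, by omega⟩)]
            split_ifs <;> linarith
          · rw [if_pos (show y ≤ x ∧ x < y + 2 ^ j from ⟨h, by omega⟩)]
            split_ifs <;> linarith
        · rw [if_neg hxy]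
          split_ifs <;> linarith
    _ = ∑ x ∈ S, ∑ y ∈ S, (if x ≤ y ∧ y < x + 2 ^ j then f x * f y else 0) +
        ∑ x ∈ S, ∑ y ∈ S, (if y ≤ x ∧ x < y + 2 ^ j then f x * f y else 0) := by
        rw [← Finset.sum_add_distrib]
        refine Finset.sum_congr rfl fun x _ => ?_
        rw [← Finset.sum_add_distrib]
    _ ≤ _ := by
        rw [hB]
        linarith

/-- the number of pairs with difference `h` -/
theorem count_le (S : Finset ℕ) (X s h : ℕ) : ∑ n ∈ S, pf X s n * pf X s (n + h) ≤
    (#{q ∈ Icc 1 X | (q + 0).Prime ∧ (q + h).Prime} : ℝ) := by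
  have h1 : ∀ n ∈ S, pf X s n * pf X s (n + h) ≤
      if s ≤ n ∧ (n - s).Prime ∧ n - s ≤ X ∧ (n - s + h).Prime then 1 else 0 := by
    intro n _
    unfold pf
    by_cases ha : s ≤ n ∧ (n - s).Prime ∧ n - s ≤ X
    · by_cases hb : s ≤ n + h ∧ (n + h - s).Prime ∧ n + h - s ≤ X
      · rw [if_pos ha, if_pos hb, if_pos]
        · norm_num
        · refine ⟨ha.1, ha.2.1, ha.2.2, ?_⟩
          have e : n - s + h = n + h - s := by omega
          rw [e]; exact hb.2.1
      · rw [if_neg hb]
        split_ifs <;> norm_num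
    · rw [if_neg ha]
      split_ifs <;> norm_num
  refine (Finset.sum_le_sum h1).trans ?_
  rw [← Finset.sum_filter, Finset.sum_const, nsmul_eq_mul, mul_one]
  have h2 : (S.filter fun n => s ≤ n ∧ (n - s).Prime ∧ n - s ≤ X ∧ (n - s + h).Prime).card ≤
      (#{q ∈ Icc 1 X | (q + 0).Prime ∧ (q + h).Prime}) := by
    refine Finset.card_le_card_of_injOn (fun n => n - s) ?_ ?_
    · intro n hn
      simp only [Finset.coe_filter, Set.mem_ofPred_eq] at hn
      simp only [Finset.coe_filter, Set.mem_ofPred_eq, Finset.mem_Icc, add_zero]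
      exact ⟨⟨hn.2.2.1.one_lt.le, hn.2.2.2.1⟩, hn.2.2.1, hn.2.2.2.2⟩
    · intro a ha b hb hab
      simp only [Finset.coe_filter, Set.mem_ofPred_eq] at ha hb
      have hab' : a - s = b - s := hab
      omega
  exact_mod_cast h2

theorem pi_le (N : ℕ) (hN : 2 ≤ N) :
    (#{q ∈ Icc 1 (16 * N) | (q + 0).Prime ∧ (q + 0).Prime} : ℝ) ≤
      (32 * Real.log 4 + 8) * N / Real.log N := by
  have hN' : (2 : ℝ) ≤ N := by exact_mod_cast hN
  have hlog : 0 < Real.log N := Real.log_pos (by linarith)
  have h0 : (#{q ∈ Icc 1 (16 * N) | (q + 0).Prime ∧ (q + 0).Prime} : ℝ) ≤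
      (Nat.primeCounting (16 * N) : ℝ) := by
    have : (#{q ∈ Icc 1 (16 * N) | (q + 0).Prime ∧ (q + 0).Prime}) ≤
        Nat.primeCounting (16 * N) := by
      rw [Nat.primeCounting, Nat.primeCounting', Nat.count_eq_card_filter_range]
      apply Finset.card_le_card
      intro q hq
      rw [Finset.mem_filter, Finset.mem_Icc] at hq
      rw [Finset.mem_filter, Finset.mem_range]
      exact ⟨by omega, hq.2.1⟩
    exact_mod_cast this
  have h1 := Chebyshev.pi_le_log4_mul_div (x := ((16 * N : ℕ) : ℝ)) (by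
    push_cast; linarith)
  rw [Nat.floor_natCast] at h1
  have h2 : Real.log √((16 * N : ℕ) : ℝ) = Real.log ((16 * N : ℕ) : ℝ) / 2 :=
    Real.log_sqrt (Nat.cast_nonneg _)
  have h3 : Real.log N ≤ Real.log ((16 * N : ℕ) : ℝ) := by
    apply Real.log_le_log (by linarith)
    push_cast; linarith
  have h4 : √((16 * N : ℕ) : ℝ) = 4 * √(N : ℝ) := by
    push_cast
    rw [Real.sqrt_mul (by norm_num)]
    congr 1
    rw [show (16 : ℝ) = 4 ^ 2 by norm_num, Real.sqrt_sq (by norm_num)]
  have h5 : Real.log N ≤ 2 * √(N : ℝ) := by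
    have e : Real.log N = 2 * Real.log √(N : ℝ) := by
      rw [Real.log_sqrt (by linarith)]; ring
    rw [e]
    have := Real.log_le_sub_one_of_pos (x := √(N : ℝ)) (Real.sqrt_pos.2 (by linarith))
    linarith
  have h6 : √(N : ℝ) ≤ 2 * N / Real.log N := by
    rw [le_div_iff₀ hlog]
    have e : √(N : ℝ) * √(N : ℝ) = N := Real.mul_self_sqrt (by linarith)
    have := mul_le_mul_of_nonneg_left h5 (Real.sqrt_nonneg (N : ℝ))
    nlinarith
  have hl4 : 0 ≤ Real.log 4 := Real.log_nonneg (by norm_num)
  have h7 : Real.log 4 * ((16 * N : ℕ) : ℝ) / Real.log √((16 * N : ℕ) : ℝ) ≤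
      32 * Real.log 4 * N / Real.log N := by
    rw [h2]
    have e : 32 * Real.log 4 * N / Real.log N =
        Real.log 4 * ((16 * N : ℕ) : ℝ) / (Real.log N / 2) := by
      push_cast
      field_simp
      ring
    rw [e]
    apply div_le_div_of_nonneg_left
    · positivity
    · linarith
    · linarith
  calc _ ≤ (Nat.primeCounting (16 * N) : ℝ) := h0
    _ ≤ _ := h1
    _ ≤ 32 * Real.log 4 * N / Real.log N + 4 * (2 * N / Real.log N) := by
        rw [h4] at h1 ⊢
        rw [← h4]
        have := h7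
        linarith [mul_le_mul_of_nonneg_left h6 (show (0 : ℝ) ≤ 4 by norm_num), h4]
    _ = _ := by field_simp; ring

end BaseH89

open BaseH89 in
theorem t_base : S_base := by
  obtain ⟨C2, hC2, x₀, hpair⟩ := Pool.Agent.H262R2.UK.pair_bound
  obtain ⟨C3, hC3, hmom⟩ := Pool.Agent.H646.MomentM.rat_moment 1
  set C1 : ℝ := 32 * Real.log 4 + 8 with hC1
  have hC1p : 0 < C1 := by
    have : 0 ≤ Real.log 4 := Real.log_nonneg (by norm_num)
    positivity
  refine ⟨2 * C1 + 32 * C2 * C3 + 128 * Real.log x₀ ^ 2, by positivity, ?_⟩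
  intro N hN s T j hj1 hj2 hjT hT
  have hN' : (2 : ℝ) ≤ N := by exact_mod_cast hN
  have hN0 : (0 : ℝ) < N := by linarith
  have hlog : 0 < Real.log N := Real.log_pos (by linarith)
  have hD : (0 : ℝ) < 2 ^ j := by positivity
  set S := range (2 ^ T) with hS
  set f := pf (16 * N) s with hf
  have hmain : En S gI f j ≤ 2 ^ T := by
    unfold En
    calc ∑ x ∈ S, av S gI j f x ^ 2 ≤ ∑ _x ∈ S, (1 : ℝ) := by
          refine Finset.sum_le_sum fun x _ => ?_
          have h1 := av_nonneg S gI j (16 * N) s x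
          have h2 := av_le_one S gI j (16 * N) s x
          exact pow_le_one₀ h1 h2
      _ = _ := by rw [Finset.sum_const, hS, Finset.card_range]; simp
  by_cases hx : x₀ ≤ 16 * N
  · -- large `N`
    have h1 : En S gI f j = ∑ x ∈ S, f x * av S gI j f x := by
      rw [sum_av S gI j f (av S gI j f) (av_meas S gI j f)]
      unfold En
      exact Finset.sum_congr rfl fun x _ => by ring
    have h2 : ∑ x ∈ S, f x * av S gI j f x ≤
        (∑ x ∈ S, f x * ∑ y ∈ cl S gI j x, f y) / 2 ^ j := by
      rw [Finset.sum_div]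
      refine Finset.sum_le_sum fun x hx => ?_
      unfold av
      rw [mul_div_assoc]
      apply mul_le_mul_of_nonneg_left _ (pf_nonneg _ _ _)
      apply div_le_div_of_nonneg_left (Finset.sum_nonneg fun _ _ => pf_nonneg _ _ _) hD
      exact_mod_cast card_cl hjT hx
    have h3 := pairs_le S f (pf_nonneg _ _) j
    have hlog16 : Real.log N ≤ Real.log ((16 * N : ℕ) : ℝ) := by
      apply Real.log_le_log (by linarith)
      push_cast; linarith
    have h4 : ∑ h ∈ range (2 ^ j), ∑ n ∈ S, f n * f (n + h) ≤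
        C1 * N / Real.log N + 16 * C2 * C3 * N / Real.log N ^ 2 * 2 ^ j := by
      have hpos : 0 < 2 ^ j := by positivity
      obtain ⟨D, hDj⟩ : ∃ D, 2 ^ j = D + 1 := ⟨2 ^ j - 1, by omega⟩
      rw [hDj, Finset.sum_range_succ', add_comm]
      apply add_le_add
      · exact (count_le S (16 * N) s 0).trans (pi_le N hN)
      · have h5 : ∀ h ∈ range D, ∑ n ∈ S, f n * f (n + (h + 1)) ≤
            16 * C2 * N / Real.log N ^ 2 * Pool.Agent.H646.rat (h + 1) := by
          intro h _
          refine (count_le S (16 * N) s (h + 1)).trans ?_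
          refine (hpair (16 * N) hx 0 (h + 1) (Nat.succ_pos h)).trans ?_
          rw [Nat.sub_zero]
          apply mul_le_mul_of_nonneg_right
          · have e : 16 * C2 * N / Real.log N ^ 2 = C2 * ((16 * N : ℕ) : ℝ) / Real.log N ^ 2 := by
              push_cast; ring
            rw [e]
            apply div_le_div_of_nonneg_left (by positivity) (by positivity)
            exact pow_le_pow_left₀ hlog.le hlog16 2
          · unfold Pool.Agent.H646.rat
            positivity
        refine (Finset.sum_le_sum h5).trans ?_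
        rw [← Finset.mul_sum]
        have h6 : ∑ h ∈ range D, Pool.Agent.H646.rat (h + 1) ≤ C3 * D := by
          have h7 := hmom D
          simp only [pow_one] at h7
          refine le_trans (le_of_eq ?_) h7
          rw [Finset.range_eq_Ico,
            Finset.sum_Ico_add' (fun n => Pool.Agent.H646.rat n) 0 D 1]
          refine Finset.sum_congr ?_ fun _ _ => rfl
          ext n
          rw [Finset.mem_Ico, Finset.mem_Icc]
          omega
        have h8 : (D : ℝ) ≤ ((2 : ℝ) ^ j) := by
          have : ((2 ^ j : ℕ) : ℝ) = (D : ℝ) + 1 := by rw [hDj]; push_cast; ring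
          push_cast at this
          rw [this]; linarith
        calc 16 * C2 * N / Real.log N ^ 2 * ∑ h ∈ range D, Pool.Agent.H646.rat (h + 1)
            ≤ 16 * C2 * N / Real.log N ^ 2 * (C3 * 2 ^ j) := by
              apply mul_le_mul_of_nonneg_left _ (by positivity)
              exact h6.trans (mul_le_mul_of_nonneg_left h8 hC3.le)
          _ = 16 * C2 * C3 * N / Real.log N ^ 2 * 2 ^ j := by ring
          _ = _ := by
              have : ((2 ^ j : ℕ) : ℝ) = ((D + 1 : ℕ) : ℝ) := by rw [hDj]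
              push_cast at this ⊢
              rw [this]
    calc En S gI f j ≤ (2 * (C1 * N / Real.log N +
          16 * C2 * C3 * N / Real.log N ^ 2 * 2 ^ j)) / 2 ^ j := by
          rw [h1]
          refine h2.trans ?_
          apply div_le_div_of_nonneg_right _ hD.le
          linarith
      _ = 2 * C1 * N / (Real.log N * 2 ^ j) + 32 * C2 * C3 * N / Real.log N ^ 2 := by
          field_simp
          ring
      _ ≤ 2 * C1 * N / (Real.log N * Real.log N) + 32 * C2 * C3 * N / Real.log N ^ 2 := by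
          apply add_le_add_left
          apply div_le_div_of_nonneg_left (by positivity) (by positivity)
          exact mul_le_mul_of_nonneg_left hj1 hlog.le
      _ = (2 * C1 + 32 * C2 * C3) * N / Real.log N ^ 2 := by
          field_simp
      _ ≤ _ := by
          apply div_le_div_of_nonneg_right _ (by positivity)
          apply mul_le_mul_of_nonneg_right _ hN0.le
          have : 0 ≤ 128 * Real.log x₀ ^ 2 := by positivity
          linarith
  · -- small `N`
    have hx' : (N : ℝ) ≤ x₀ := by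
      have : N ≤ x₀ := by omega
      exact_mod_cast this
    have hl : Real.log N ≤ Real.log x₀ := Real.log_le_log (by linarith) hx'
    have hsq : Real.log N ^ 2 ≤ Real.log x₀ ^ 2 := pow_le_pow_left₀ hlog.le hl 2
    have hT' : (2 : ℝ) ^ T ≤ 128 * N := by exact_mod_cast hT
    calc En S gI f j ≤ 128 * N := hmain.trans hT'
      _ = 128 * Real.log N ^ 2 * N / Real.log N ^ 2 := by field_simp
      _ ≤ _ := by
          apply div_le_div_of_nonneg_right _ (by positivity)
          apply mul_le_mul_of_nonneg_right _ hN0.le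
          have : 0 < 2 * C1 + 32 * C2 * C3 := by positivity
          linarith

end Pool.Agent.NH18.SC
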