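import Pool.Agent.NH18.SC.Main

/-!
# Assembly of the project SC, part 2: the deterministic part
-/

namespace Pool.Agent.NH18.SC

open Finset

/-- `p` has primes around it at all scales, with a density which is constant between the scales of a small
set `B`. -/
def Good (C : ℝ) (N : ℕ) (ε K η : ℝ) (p : ℕ) : Prop :=
  (∀ l : ℕ, Real.log N ≤ 2 ^ l → 2 ^ l ≤ p →
    ε / C * (2 ^ l / Real.log N) ≤ P (p - 2 ^ l) (p + 2 ^ l) ∧
      (P (p - 2 ^ l) (p + 2 ^ l) : ℝ) ≤ C / ε * (2 ^ l / Real.log N)) ∧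
  ∃ B : Finset ℕ, (B.card : ℝ) ≤ C * K * Real.log (2 * K / η) / (η ^ 3 * ε ^ 2) ∧
    ∀ l l' : ℕ, Real.log N ≤ 2 ^ l → l ≤ l' → 2 ^ l' ≤ p → (∀ i ∈ B, i < l ∨ l' < i) →
      ∀ x h : ℕ, p ≤ x + 2 ^ l → x + h ≤ p + 2 ^ l → (2 : ℝ) ^ l ≤ K * h →
        |(P x (x + h) : ℝ) * (2 * 2 ^ l') - h * P (p - 2 ^ l') (p + 2 ^ l')| ≤
          η * (h * P (p - 2 ^ l') (p + 2 ^ l'))

open scoped Classical in
/-- the point `p` is good for the grid with shift `s` -/
structure Ok (N T s i₀ m : ℕ) (δ Λ M θ : ℝ) (p : ℕ) : Prop where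
  lo : ∀ i ≤ T, δ ≤ av (range (2 ^ T)) gI i (pf (16 * N) s) (p + s)
  hi : ∀ i, i₀ ≤ i → i ≤ T → av (range (2 ^ T)) gI i (pf (16 * N) s) (p + s) ≤ Λ
  bad : (((Icc i₀ T).filter (fun i => Bad (range (2 ^ T)) gI (pf (16 * N) s) θ m i (p + s) ∧
    δ ≤ av (range (2 ^ T)) gI (i + m) (pf (16 * N) s) (p + s))).card : ℝ) ≤ M

theorem cast_four (a : ℕ) : (4 : ℕ) ^ a = 2 ^ (2 * a) := by
  rw [pow_mul]; norm_num

theorem shift_lt {a N p s L : ℕ} (ha : 16 * N ≤ 4 ^ a) (hp : p ≤ N) (hL : L ≤ p)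
    (hs : s ≤ (4 ^ a - 1) / 3) : p + s + L < 2 ^ (2 * a + 1) := by
  rw [pow_succ, ← cast_four]
  have : 0 < 4 ^ a := by positivity
  omega

/-- the window is contained in one block -/
def Win (s p l : ℕ) : Prop := ∀ x, p < x + 2 ^ l → x ≤ p + 2 ^ l →
  (x + s) / 2 ^ (l + 3) = (p + s) / 2 ^ (l + 3)

theorem upper_of_win {T s p l X : ℕ} {Λ : ℝ} (hw : Win s p l) (hl : 2 ^ l ≤ p) (hX : p + 2 ^ l ≤ X)
    (hT : l + 3 ≤ T) (hpT : p + s < 2 ^ T)
    (hΛ : av (range (2 ^ T)) gI (l + 3) (pf X s) (p + s) ≤ Λ) :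
    (P (p - 2 ^ l) (p + 2 ^ l) : ℝ) ≤ 8 * 2 ^ l * Λ := by
  have h1 := av_gI hT hpT (pf X s)
  set M := 2 ^ (l + 3) with hM
  have hM0 : 0 < M := by positivity
  have h2 : (P (p - 2 ^ l) (p + 2 ^ l) : ℝ) ≤
      ∑ n ∈ Ico ((p + s) / M * M) ((p + s) / M * M + M), pf X s n := by
    have e : p + 2 ^ l = (p - 2 ^ l) + 2 * 2 ^ l := by omega
    rw [e, ← pf_sum s (x := p - 2 ^ l) (h := 2 * 2 ^ l) (X := X) (by omega)]
    refine Finset.sum_le_sum_of_subset_of_nonneg ?_ (fun n _ _ => pf_nonneg _ _ _)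
    intro n hn
    rw [Finset.mem_Ico] at hn ⊢
    rw [← div_eq_iff_mem hM0]
    have h3 := hw (n - s) (by omega) (by omega)
    have h4 : n - s + s = n := by omega
    rw [h4] at h3
    exact h3
  rw [← h1] at h2
  have h5 : (2 : ℝ) ^ (l + 3) = 8 * 2 ^ l := by rw [pow_add]; norm_num; ring
  rw [h5] at h2
  exact h2.trans (mul_le_mul_of_nonneg_left hΛ (by positivity))

/-- the block of length `2 ^ l` of `p` in the first grid as an interval -/
theorem block_eq {T p l X : ℕ} (hl : 2 ^ l ≤ p) (hX : p + 2 ^ l ≤ X) (hT : l ≤ T) (hpT : p < 2 ^ T) :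
    ∃ x, p ≤ x + 2 ^ l ∧ x + 2 ^ l ≤ p + 2 ^ l ∧
      (2 : ℝ) ^ l * av (range (2 ^ T)) gI l (pf X 0) p = P x (x + 2 ^ l) := by
  have h1 := av_gI hT hpT (pf X 0)
  set M := 2 ^ l with hM
  have hM0 : 0 < M := by positivity
  have h2 : p / M * M ≤ p := Nat.div_mul_le_self p M
  have h3 : p < p / M * M + M := by
    have := (div_eq_iff_mem (n := p) (q := p / M) hM0).1 rfl
    exact this.2
  have h4 : 1 ≤ p / M * M := by
    have : 1 ≤ p / M := by rw [Nat.le_div_iff_mul_le hM0]; omega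
    exact Nat.mul_pos this hM0
  refine ⟨p / M * M - 1, by omega, by omega, ?_⟩
  rw [h1, ← pf_sum 0 (x := p / M * M - 1) (h := M) (X := X) (by omega)]
  have e1 : p / M * M - 1 + 1 + 0 = p / M * M := by omega
  rw [e1]

theorem P_mono {u u' v v' : ℕ} (h1 : u' ≤ u) (h2 : v ≤ v') : P u v ≤ P u' v' := by
  unfold P
  refine Finset.card_le_card (Finset.filter_subset_filter _ (Finset.Ioc_subset_Ioc h1 h2))

theorem det (hE : S_equi) (hG : S_grid) {N a m i₀ p : ℕ} {K η ε δ Λ M M₂ C : ℝ}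
    (hN : 2 ≤ N) (ha : 16 * N ≤ 4 ^ a) (hp : p ≤ N) (hK : 1 ≤ K) (hη : 0 < η) (hη1 : η ≤ 1)
    (hm : 32 * K / (η / 32) ≤ 2 ^ m) (hm3 : 3 ≤ m) (hi₀ : ∀ l : ℕ, Real.log N ≤ 2 ^ l → i₀ ≤ l)
    (ok0 : Ok N (2 * a + 1) 0 i₀ m δ Λ M (η / 32) p)
    (ok1 : Ok N (2 * a + 1) ((4 ^ a - 1) / 3) i₀ m δ Λ M (η / 32) p)
    (J : Finset ℕ)
    (hJ : ∀ i i', i₀ ≤ i → i ≤ i' → i' ≤ 2 * a + 1 → (∀ k ∈ J, k < i ∨ i' ≤ k) →
      |av (range (2 ^ (2 * a + 1))) gI i (pf (16 * N) 0) p -
        av (range (2 ^ (2 * a + 1))) gI i' (pf (16 * N) 0) p| ≤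
        4 * (η / 32) * av (range (2 ^ (2 * a + 1))) gI i' (pf (16 * N) 0) p)
    (hJc : (J.card : ℝ) ≤ M₂)
    (hC : 0 < C) (hε : 0 < ε)
    (hδ : ε / C / Real.log N ≤ δ) (hΛ : 8 * Λ ≤ C / ε / Real.log N)
    (hcard : m + 2 * M + M₂ ≤ C * K * Real.log (2 * K / η) / (η ^ 3 * ε ^ 2)) :
    Good C N ε K η p := by
  classical
  set T := 2 * a + 1 with hT
  set s₁ := (4 ^ a - 1) / 3 with hs₁
  have hlogN : 0 < Real.log N := Real.log_pos (by exact_mod_cast (by omega : 1 < N))
  have hl3 : ∀ l : ℕ, 2 ^ l ≤ p → l + 3 ≤ 2 * a := by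
    intro l hl
    have : 2 ^ (l + 3) ≤ 2 ^ (2 * a) := by
      rw [← cast_four, pow_add]; omega
    exact (Nat.pow_le_pow_iff_right (by norm_num)).1 this
  have hwin : ∀ l : ℕ, 2 ^ l ≤ p → Win 0 p l ∨ Win s₁ p l := by
    intro l hl
    rcases hG a l p (hl3 l hl) hl with h | h
    · left; intro x h1 h2; simpa using h x h1 h2
    · right; exact h
  have hpT0 : p + 0 < 2 ^ T := by
    have := shift_lt (s := 0) (L := 0) ha hp (by omega) (by omega); omega
  refine ⟨?_, ?_⟩
  · intro l hl1 hl2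
    have hX : p + 2 ^ l ≤ 16 * N := by omega
    have hlT : l + 3 ≤ T := by have := hl3 l hl2; omega
    constructor
    · obtain ⟨x, hx1, hx2, hx3⟩ := block_eq (T := T) hl2 hX (by omega) (by omega)
      have h1 : ε / C / Real.log N ≤ av (range (2 ^ T)) gI l (pf (16 * N) 0) p :=
        hδ.trans (ok0.lo l (by omega))
      have h2 : (P x (x + 2 ^ l) : ℝ) ≤ P (p - 2 ^ l) (p + 2 ^ l) := by
        exact_mod_cast P_mono (by omega) (by omega)
      refine le_trans ?_ h2
      rw [← hx3]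
      have h3 : ε / C * (2 ^ l / Real.log N) = 2 ^ l * (ε / C / Real.log N) := by ring
      rw [h3]
      exact mul_le_mul_of_nonneg_left h1 (by positivity)
    · have key : (P (p - 2 ^ l) (p + 2 ^ l) : ℝ) ≤ 8 * 2 ^ l * Λ := by
        rcases hwin l hl2 with hw | hw
        · exact upper_of_win hw hl2 hX hlT hpT0 (ok0.hi _ (by have := hi₀ l hl1; omega) hlT)
        · have hs := shift_lt (s := s₁) (L := 0) ha hp (by omega) le_rfl
          exact upper_of_win hw hl2 hX hlT (by omega)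
            (ok1.hi _ (by have := hi₀ l hl1; omega) hlT)
      refine key.trans ?_
      have h3 : C / ε * (2 ^ l / Real.log N) = 2 ^ l * (C / ε / Real.log N) := by ring
      rw [h3]
      have h4 : (8 : ℝ) * 2 ^ l * Λ = 2 ^ l * (8 * Λ) := by ring
      rw [h4]
      exact mul_le_mul_of_nonneg_left hΛ (by positivity)
  · -- the exceptional scales
    set b0 := (Icc i₀ T).filter (fun i => Bad (range (2 ^ T)) gI (pf (16 * N) 0) (η / 32) m i (p + 0) ∧
      δ ≤ av (range (2 ^ T)) gI (i + m) (pf (16 * N) 0) (p + 0)) with hb0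
    set b1 := (Icc i₀ T).filter (fun i => Bad (range (2 ^ T)) gI (pf (16 * N) s₁) (η / 32) m i (p + s₁) ∧
      δ ≤ av (range (2 ^ T)) gI (i + m) (pf (16 * N) s₁) (p + s₁)) with hb1
    have hb0c : (b0.card : ℝ) ≤ M := ok0.bad
    have hb1c : (b1.card : ℝ) ≤ M := ok1.bad
    refine ⟨Ico i₀ (i₀ + m) ∪ (b0.image (fun j => j + m - 3) ∪ (b1.image (fun j => j + m - 3) ∪ J)),
      ?_, ?_⟩
    · have c1 : ((Ico i₀ (i₀ + m) ∪ (b0.image (fun j => j + m - 3) ∪
          (b1.image (fun j => j + m - 3) ∪ J))).card : ℝ) ≤ m + (b0.card + (b1.card + J.card)) := by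
        have u1 := Finset.card_union_le (Ico i₀ (i₀ + m)) (b0.image (fun j => j + m - 3) ∪
          (b1.image (fun j => j + m - 3) ∪ J))
        have u2 := Finset.card_union_le (b0.image (fun j => j + m - 3))
          (b1.image (fun j => j + m - 3) ∪ J)
        have u3 := Finset.card_union_le (b1.image (fun j => j + m - 3)) J
        have u4 : (b0.image (fun j => j + m - 3)).card ≤ b0.card := Finset.card_image_le
        have u5 : (b1.image (fun j => j + m - 3)).card ≤ b1.card := Finset.card_image_le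
        have u6 : (Ico i₀ (i₀ + m)).card = m := by rw [Nat.card_Ico]; omega
        have : (Ico i₀ (i₀ + m) ∪ (b0.image (fun j => j + m - 3) ∪
          (b1.image (fun j => j + m - 3) ∪ J))).card ≤ m + (b0.card + (b1.card + J.card)) := by omega
        exact_mod_cast this
      linarith
    · intro l l' hl hll' hl' hB
      have hl'N : Real.log N ≤ 2 ^ l' := hl.trans (pow_le_pow_right₀ (by norm_num) hll')
      have hlp : 2 ^ l ≤ p := (Nat.pow_le_pow_right (by norm_num) hll').trans hl'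
      -- regularity at a scale outside B
      have reg : ∀ k : ℕ, Real.log N ≤ 2 ^ k → 2 ^ k ≤ p → l ≤ k → k ≤ l' →
          ∃ ρ : ℝ, 0 ≤ ρ ∧ ∀ x h : ℕ, p ≤ x + 2 ^ k → x + h ≤ p + 2 ^ k → (2 : ℝ) ^ k ≤ K * h →
            |(P x (x + h) : ℝ) - h * ρ| ≤ 2 * (η / 32) * (h * ρ) := by
        intro k hk1 hk2 hk3 hk4
        have hkB : ∀ i ∈ Ico i₀ (i₀ + m) ∪ (b0.image (fun j => j + m - 3) ∪
            (b1.image (fun j => j + m - 3) ∪ J)), i ≠ k := by
          intro i hi; have := hB i hi; omega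
        have hi₀k : i₀ ≤ k := hi₀ k hk1
        have hkm : i₀ + m ≤ k := by
          by_contra hcon
          exact hkB k (by rw [Finset.mem_union]; left; rw [Finset.mem_Ico]; omega) rfl
        obtain ⟨j, hj⟩ : ∃ j, k + 3 = j + m := ⟨k + 3 - m, by omega⟩
        have hkT : k + 3 ≤ T := by have := hl3 k hk2; omega
        have hjI : j ∈ Icc i₀ T := by rw [Finset.mem_Icc]; omega
        have hθ : 0 < η / 32 := by positivity
        have hθ1 : η / 32 ≤ 1 := by linarith
        rcases hwin k hk2 with hw | hw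
        · refine ⟨av (range (2 ^ T)) gI (k + 3) (pf (16 * N) 0) (p + 0),
            av_nonneg (fun _ => pf_nonneg _ _ _) _, ?_⟩
          have hs := shift_lt (s := 0) (L := 2 ^ k) ha hp hk2 (by omega)
          refine hE K (η / 32) m T 0 (16 * N) p k j hK hθ hθ1 hm hj hkT hk2 (by omega) hs hw ?_
          have hjb : j ∉ b0 := by
            intro hjb
            refine hkB k ?_ rfl
            rw [Finset.mem_union, Finset.mem_union]; right; left
            rw [Finset.mem_image]; exact ⟨j, hjb, by omega⟩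
          intro y hy hgy
          by_contra hcon
          refine hjb ?_
          rw [hb0, Finset.mem_filter]
          refine ⟨hjI, ⟨y, hy, by rw [← hj]; exact hgy, ?_⟩, ?_⟩
          · rw [← hj]; exact not_le.1 hcon
          · exact ok0.lo _ (by omega)
        · refine ⟨av (range (2 ^ T)) gI (k + 3) (pf (16 * N) s₁) (p + s₁),
            av_nonneg (fun _ => pf_nonneg _ _ _) _, ?_⟩
          have hs := shift_lt (s := s₁) (L := 2 ^ k) ha hp hk2 le_rfl
          refine hE K (η / 32) m T s₁ (16 * N) p k j hK hθ hθ1 hm hj hkT hk2 (by omega) hs hw ?_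
          have hjb : j ∉ b1 := by
            intro hjb
            refine hkB k ?_ rfl
            rw [Finset.mem_union, Finset.mem_union, Finset.mem_union]; right; right; left
            rw [Finset.mem_image]; exact ⟨j, hjb, by omega⟩
          intro y hy hgy
          by_contra hcon
          refine hjb ?_
          rw [hb1, Finset.mem_filter]
          refine ⟨hjI, ⟨y, hy, by rw [← hj]; exact hgy, ?_⟩, ?_⟩
          · rw [← hj]; exact not_le.1 hcon
          · exact ok1.lo _ (by omega)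
      obtain ⟨ρ, hρ, hρ1⟩ := reg l hl hlp le_rfl hll'
      obtain ⟨ρ', hρ', hρ'1⟩ := reg l' hl'N hl' hll' le_rfl
      -- densities of the blocks of the first grid
      have blk : ∀ (k : ℕ) (r : ℝ), Real.log N ≤ 2 ^ k → 2 ^ k ≤ p →
          (∀ x h : ℕ, p ≤ x + 2 ^ k → x + h ≤ p + 2 ^ k → (2 : ℝ) ^ k ≤ K * h →
            |(P x (x + h) : ℝ) - h * r| ≤ 2 * (η / 32) * (h * r)) →
          |av (range (2 ^ T)) gI k (pf (16 * N) 0) p - r| ≤ 2 * (η / 32) * r := by
        intro k r hk1 hk2 hr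
        have hkT : k + 3 ≤ T := by have := hl3 k hk2; omega
        obtain ⟨x, hx1, hx2, hx3⟩ := block_eq (T := T) (X := 16 * N) hk2 (by omega) (by omega) (by omega)
        have h2k : (0 : ℝ) < 2 ^ k := by positivity
        have h1 := hr x (2 ^ k) hx1 hx2 (by push_cast; nlinarith)
        rw [← hx3] at h1
        push_cast at h1
        rw [← mul_sub, abs_mul, abs_of_pos h2k] at h1
        have h3 : 2 ^ k * |av (range (2 ^ T)) gI k (pf (16 * N) 0) p - r| ≤
            2 ^ k * (2 * (η / 32) * r) := by linarith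
        exact le_of_mul_le_mul_left h3 h2k
      have d1 := blk l ρ hl hlp hρ1
      have d2 := blk l' ρ' hl'N hl' hρ'1
      have d3 := hJ l l' (hi₀ l hl) hll' (by have := hl3 l' hl'; omega) (by
        intro k hk
        have := hB k (by
          rw [Finset.mem_union, Finset.mem_union, Finset.mem_union]; right; right; right; exact hk)
        omega)
      intro x h hx1 hx2 hx3
      have w1 := hρ1 x h hx1 hx2 hx3
      have w2 := hρ'1 (p - 2 ^ l') (2 * 2 ^ l') (by omega) (by omega) (by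
        push_cast
        have : (0 : ℝ) < 2 ^ l' := by positivity
        nlinarith)
      have e2 : p - 2 ^ l' + 2 * 2 ^ l' = p + 2 ^ l' := by omega
      rw [e2] at w2
      push_cast at w2
      have := chain (θ := η / 32) (h := h) (H := 2 * 2 ^ l') (by positivity) (by linarith)
        (Nat.cast_nonneg h) (by positivity) hρ hρ'
        (av_nonneg (fun _ => pf_nonneg _ _ _) _) w1 d1 d3 d2 w2
      have e3 : 32 * (η / 32) = η := by ring
      rw [e3] at this
      exact this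

end Pool.Agent.NH18.SC
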