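import Pool.Agent.NH18.SC.Stm

/-!
# From dyadic blocks to all intervals (SC-6)
-/

set_option autoImplicit false

namespace Pool.Agent.NH18.SC

open Finset

namespace EquiH

theorem pf_nonneg (X s n : ℕ) : 0 ≤ pf X s n := by
  unfold pf
  split_ifs <;> norm_num

theorem mem_block (k c n : ℕ) (hk : 0 < k) : n / k = c ↔ c * k ≤ n ∧ n < (c + 1) * k := by
  constructor
  · rintro rfl
    exact ⟨Nat.div_mul_le_self _ _, (Nat.div_lt_iff_lt_mul hk).1 (Nat.lt_succ_self _)⟩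
  · rintro ⟨h1, h2⟩
    exact Nat.div_eq_of_lt_le h1 h2

theorem lt_of_div (T i y c : ℕ) (hi : i ≤ T) (hc : c < 2 ^ T) (h : y / 2 ^ i = c / 2 ^ i) :
    y < 2 ^ T := by
  have hpos : 0 < 2 ^ i := pow_pos (by norm_num) _
  have hT : 2 ^ T = 2 ^ (T - i) * 2 ^ i := by rw [← pow_add]; congr 1; omega
  rw [hT, ← Nat.div_lt_iff_lt_mul hpos] at hc ⊢
  rw [h]; exact hc

/-- the class of level `i` is a dyadic block -/
theorem cl_block (T i y c : ℕ) (hi : i ≤ T) (hy : y < 2 ^ T) (hc : y / 2 ^ i = c) :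
    cl (range (2 ^ T)) gI i y = Ico (c * 2 ^ i) ((c + 1) * 2 ^ i) := by
  have hpos : 0 < 2 ^ i := pow_pos (by norm_num) _
  ext n
  simp only [cl, mem_filter, mem_range, gI, mem_Ico, hc]
  rw [mem_block (2 ^ i) c n hpos]
  constructor
  · rintro ⟨_, h⟩; exact h
  · rintro h
    refine ⟨?_, h⟩
    have := (mem_block (2 ^ i) c n hpos).2 h
    exact lt_of_div T i n y hi hy (this.trans hc.symm)

theorem av_block (T i y c X s : ℕ) (hi : i ≤ T) (hy : y < 2 ^ T) (hc : y / 2 ^ i = c) :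
    av (range (2 ^ T)) gI i (pf X s) y =
      (∑ n ∈ Ico (c * 2 ^ i) ((c + 1) * 2 ^ i), pf X s n) / 2 ^ i := by
  have e : (Ico (c * 2 ^ i) ((c + 1) * 2 ^ i)).card = 2 ^ i := by
    rw [Nat.card_Ico, add_mul, one_mul, Nat.add_sub_cancel_left]
  rw [av, cl_block T i y c hi hy hc, e]
  push_cast
  rfl

theorem blocks (F : ℕ → ℝ) (D : ℕ) (lo hi : ℝ) (b b' : ℕ) (hb : b ≤ b')
    (h : ∀ c, b ≤ c → c < b' → lo ≤ ∑ n ∈ Ico (c * D) ((c + 1) * D), F n ∧
      ∑ n ∈ Ico (c * D) ((c + 1) * D), F n ≤ hi) :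
    ((b' : ℝ) - b) * lo ≤ ∑ n ∈ Ico (b * D) (b' * D), F n ∧
      ∑ n ∈ Ico (b * D) (b' * D), F n ≤ ((b' : ℝ) - b) * hi := by
  induction b', hb using Nat.le_induction with
  | base => simp
  | succ k hk ih =>
    have h1 := ih (fun c h1 h2 => h c h1 (by omega))
    have h2 := h k hk (Nat.lt_succ_self k)
    have e : ∑ n ∈ Ico (b * D) ((k + 1) * D), F n =
        ∑ n ∈ Ico (b * D) (k * D), F n + ∑ n ∈ Ico (k * D) ((k + 1) * D), F n :=
      (Finset.sum_Ico_consecutive F (Nat.mul_le_mul_right _ hk)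
        (Nat.mul_le_mul_right _ (Nat.le_succ k))).symm
    rw [e]
    push_cast
    constructor <;> nlinarith [h1.1, h1.2, h2.1, h2.2]

theorem P_eq (X s x h : ℕ) (hX : x + h ≤ X) :
    (P x (x + h) : ℝ) = ∑ n ∈ Ico (x + s + 1) (x + s + h + 1), pf X s n := by
  have e1 : Ico (x + s + 1) (x + s + h + 1) = (Ioc x (x + h)).map (addRightEmbedding s) := by
    rw [map_add_right_Ioc]
    ext n
    simp only [mem_Ico, mem_Ioc]
    omega
  rw [e1, Finset.sum_map, P, Finset.card_filter]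
  push_cast
  refine Finset.sum_congr rfl fun q hq => ?_
  rw [mem_Ioc] at hq
  simp only [addRightEmbedding_apply, pf, Nat.add_sub_cancel]
  by_cases hp : q.Prime
  · rw [if_pos hp, if_pos ⟨by omega, hp, by omega⟩]
  · rw [if_neg hp, if_neg (fun h => hp h.2.1)]

end EquiH

open EquiH

/-- (SC-6) -/
theorem t_equi : S_equi := by
  intro K θ m T s X p l j hK hθ hθ1 hm hlj hlT hp hpX hpT hwin hav x h hx hxh hh
  set ρ : ℝ := av (range (2 ^ T)) gI (l + 3) (pf X s) (p + s) with hρ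
  have hjT : j ≤ T := by omega
  have hD : 0 < 2 ^ j := pow_pos (by norm_num) _
  have hL : (0 : ℝ) < 2 ^ l := pow_pos (by norm_num) _
  have hh1 : 1 ≤ h := by
    by_contra hcon
    have h0 : h = 0 := by omega
    subst h0
    simp at hh
    linarith
  have hρ0 : 0 ≤ ρ := by
    rw [hρ, av]
    exact div_nonneg (Finset.sum_nonneg fun n _ => pf_nonneg X s n) (Nat.cast_nonneg _)
  have hDM : 2 ^ (l + 3) = 2 ^ j * 2 ^ m := by rw [hlj, pow_add]
  have hDMr : (2 : ℝ) ^ (l + 3) = 2 ^ j * 2 ^ m := by rw [hlj, pow_add]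
  set D : ℕ := 2 ^ j with hDdef
  -- the values on the small blocks
  have hblk : ∀ c, (x + s + 1) / D ≤ c → c ≤ (x + s + h) / D →
      (D : ℝ) * (1 - θ) * ρ ≤ ∑ n ∈ Ico (c * D) ((c + 1) * D), pf X s n ∧
      ∑ n ∈ Ico (c * D) ((c + 1) * D), pf X s n ≤ (D : ℝ) * (1 + θ) * ρ := by
    intro c hc1 hc2
    have w1 := hwin (x + 1) (by omega) (by omega)
    have w2 := hwin (x + h) (by omega) (by omega)
    have e1 : (x + s + 1) / D / 2 ^ m = (p + s) / 2 ^ (l + 3) := by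
      rw [Nat.div_div_eq_div_mul, ← hDM, ← w1]; congr 1; omega
    have e2 : (x + s + h) / D / 2 ^ m = (p + s) / 2 ^ (l + 3) := by
      rw [Nat.div_div_eq_div_mul, ← hDM, ← w2]; congr 1; omega
    have e3 : c / 2 ^ m = (p + s) / 2 ^ (l + 3) := by
      apply le_antisymm
      · rw [← e2]; exact Nat.div_le_div_right hc2
      · rw [← e1]; exact Nat.div_le_div_right hc1
    have e4 : c * D / 2 ^ (l + 3) = (p + s) / 2 ^ (l + 3) := by
      rw [hDM, ← Nat.div_div_eq_div_mul, Nat.mul_div_cancel _ hD, e3, hDM]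
    have hy : c * D < 2 ^ T := lt_of_div T (l + 3) _ (p + s) hlT (by
      have : 0 < 2 ^ l := pow_pos (by norm_num) _
      omega) e4
    have h5 := hav (c * D) (mem_range.2 hy) e4
    rw [av_block T j (c * D) c X s hjT hy (Nat.mul_div_cancel _ hD)] at h5
    have hDr : (0 : ℝ) < (D : ℝ) := by exact_mod_cast hD
    have hcast : ((2 : ℝ) ^ j) = (D : ℝ) := by rw [hDdef]; push_cast; rfl
    rw [hcast, abs_le] at h5
    have h6 : (1 - θ) * ρ ≤ (∑ n ∈ Ico (c * D) ((c + 1) * D), pf X s n) / (D : ℝ) := by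
      linarith [h5.1]
    have h7 : (∑ n ∈ Ico (c * D) ((c + 1) * D), pf X s n) / (D : ℝ) ≤ (1 + θ) * ρ := by
      linarith [h5.2]
    rw [le_div_iff₀ hDr] at h6
    rw [div_le_iff₀ hDr] at h7
    constructor <;> linarith
  have hxX : x + h ≤ X := by omega
  rw [P_eq X s x h hxX]
  set F : ℕ → ℝ := pf X s with hF
  have hF0 : ∀ n, 0 ≤ F n := fun n => pf_nonneg X s n
  -- upper bound
  set c0 := (x + s + 1) / D with hc0
  set c1 := (x + s + h) / D with hc1
  have hc01 : c0 ≤ c1 := Nat.div_le_div_right (by omega)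
  have q1 : c0 * D ≤ x + s + 1 := Nat.div_mul_le_self _ _
  have q2 : x + s + 1 < (c0 + 1) * D := ((mem_block D c0 _ hD).1 rfl).2
  have q3 : c1 * D ≤ x + s + h := Nat.div_mul_le_self _ _
  have q4 : x + s + h < (c1 + 1) * D := ((mem_block D c1 _ hD).1 rfl).2
  have up := (blocks F D ((D : ℝ) * (1 - θ) * ρ) ((D : ℝ) * (1 + θ) * ρ) c0 (c1 + 1) (by omega)
    (fun c h1 h2 => hblk c h1 (by omega))).2
  have up2 : ∑ n ∈ Ico (x + s + 1) (x + s + h + 1), F n ≤
      ∑ n ∈ Ico (c0 * D) ((c1 + 1) * D), F n :=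
    Finset.sum_le_sum_of_subset_of_nonneg (Finset.Ico_subset_Ico q1 (by omega))
      (fun n _ _ => hF0 n)
  have cU : (((c1 + 1 : ℕ) : ℝ) - c0) * D ≤ h + 2 * D := by
    have t1 : (c1 : ℝ) * D ≤ x + s + h := by exact_mod_cast q3
    have t2 : ((x : ℝ) + s + 1) < (c0 + 1) * D := by exact_mod_cast q2
    push_cast
    linarith
  have hθρ : 0 ≤ (1 + θ) * ρ := mul_nonneg (by linarith) hρ0
  have hθρ' : 0 ≤ (1 - θ) * ρ := mul_nonneg (by linarith) hρ0
  have UP : ∑ n ∈ Ico (x + s + 1) (x + s + h + 1), F n ≤ (h + 2 * D) * ((1 + θ) * ρ) := by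
    have := mul_le_mul_of_nonneg_right cU hθρ
    linarith
  -- lower bound
  set b0 := (x + s) / D + 1 with hb0
  set b1 := (x + s + h + 1) / D with hb1
  have r1 : (x + s) / D * D ≤ x + s := Nat.div_mul_le_self _ _
  have r2 : x + s < b0 * D := ((mem_block D ((x + s) / D) _ hD).1 rfl).2
  have r3 : b1 * D ≤ x + s + h + 1 := Nat.div_mul_le_self _ _
  have r4 : x + s + h + 1 < (b1 + 1) * D := ((mem_block D b1 _ hD).1 rfl).2
  have cL : ((h : ℝ) - 2 * D) ≤ ((b1 : ℝ) - b0) * D := by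
    have t1 : (((x + s) / D : ℕ) : ℝ) * D ≤ x + s := by exact_mod_cast r1
    have t2 : ((x : ℝ) + s + h + 1) < (b1 + 1) * D := by exact_mod_cast r4
    rw [hb0]
    push_cast at t1 ⊢
    linarith
  have LO : (h - 2 * D) * ((1 - θ) * ρ) ≤ ∑ n ∈ Ico (x + s + 1) (x + s + h + 1), F n := by
    by_cases hbb : b0 ≤ b1
    · have lo := (blocks F D ((D : ℝ) * (1 - θ) * ρ) ((D : ℝ) * (1 + θ) * ρ) b0 b1 hbb
        (fun c h1 h2 => hblk c (by
            have k1 : (x + s + 1) / D ≤ (x + s) / D + 1 := by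
              rw [← Nat.add_div_right _ hD]
              exact Nat.div_le_div_right (by omega)
            omega)
          (by
            have k2 : (x + s + h + 1) / D ≤ (x + s + h) / D + 1 := by
              rw [← Nat.add_div_right _ hD]
              exact Nat.div_le_div_right (by omega)
            omega))).1
      have lo2 : ∑ n ∈ Ico (b0 * D) (b1 * D), F n ≤ ∑ n ∈ Ico (x + s + 1) (x + s + h + 1), F n :=
        Finset.sum_le_sum_of_subset_of_nonneg (Finset.Ico_subset_Ico (by omega) (by omega))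
          (fun n _ _ => hF0 n)
      have := mul_le_mul_of_nonneg_right cL hθρ'
      linarith
    · have hneg : ((b1 : ℝ) - b0) * D ≤ 0 := by
        apply mul_nonpos_of_nonpos_of_nonneg
        · have : (b1 : ℝ) < b0 := by exact_mod_cast (not_le.1 hbb)
          linarith
        · exact_mod_cast hD.le
      have h8 : ((h : ℝ) - 2 * D) ≤ 0 := cL.trans hneg
      have h9 : (h - 2 * D) * ((1 - θ) * ρ) ≤ 0 := mul_nonpos_of_nonpos_of_nonneg h8 hθρ'
      exact h9.trans (Finset.sum_nonneg fun n _ => hF0 n)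
  -- the size of the small blocks
  have hDθ : 4 * (D : ℝ) ≤ θ * h := by
    have hmpos : (0 : ℝ) < 2 ^ m := pow_pos (by norm_num) _
    have k1 : 32 * K ≤ 2 ^ m * θ := (div_le_iff₀ hθ).1 hm
    have hcast : ((2 : ℝ) ^ j) = (D : ℝ) := by rw [hDdef]; push_cast; rfl
    have k2 : (D : ℝ) * 2 ^ m = 8 * 2 ^ l := by
      rw [← hcast, ← hDMr, pow_add]; ring
    have hhr : (0 : ℝ) ≤ h := Nat.cast_nonneg _
    have k3 : 4 * (D : ℝ) * 2 ^ m ≤ θ * h * 2 ^ m := by
      calc 4 * (D : ℝ) * 2 ^ m = 32 * 2 ^ l := by linarith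
        _ ≤ 32 * (K * h) := by linarith
        _ = (32 * K) * h := by ring
        _ ≤ (2 ^ m * θ) * h := mul_le_mul_of_nonneg_right k1 hhr
        _ = θ * h * 2 ^ m := by ring
    exact le_of_mul_le_mul_right k3 hmpos
  have hDr : (0 : ℝ) ≤ (D : ℝ) := Nat.cast_nonneg _
  have hhr : (0 : ℝ) ≤ h := Nat.cast_nonneg _
  rw [abs_le]
  have z1 : 0 ≤ ρ * (θ * h - 4 * D) := mul_nonneg hρ0 (by linarith)
  have z2 : 0 ≤ ρ * D := mul_nonneg hρ0 hDr
  have z3 : 0 ≤ ρ * D * (1 - θ) := mul_nonneg z2 (by linarith)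
  have z4 : 0 ≤ ρ * D * θ := mul_nonneg z2 hθ.le
  constructor
  · linarith
  · linarith

end Pool.Agent.NH18.SC
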