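import Pool.Agent.NH18.SC.Det

/-!
# Assembly of the project SC, part 3: the exceptional sets
-/

namespace Pool.Agent.NH18.SC

open Finset

open scoped Classical in
/-- the exceptional primes of one grid -/
theorem grid_exc (hL : S_maxL) (hU : S_maxU) (hB : S_badm) {N T s i₀ m : ℕ} {δ Λ M θ En₀ : ℝ}
    (hs : N + s < 2 ^ T) (hδ : 0 < δ) (hΛ : 0 < Λ) (hM : 0 < M) (hθ : 0 < θ)
    (hEn : En (range (2 ^ T)) gI (pf (16 * N) s) i₀ ≤ En₀) :
    (((Icc 1 N).filter (fun p => p.Prime ∧ ¬ Ok N T s i₀ m δ Λ M θ p)).card : ℝ) ≤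
      δ * 2 ^ T + En₀ / Λ + (2 ^ m / (δ * θ ^ 2) * m * En₀) / M := by
  set S := range (2 ^ T) with hS
  set f := pf (16 * N) s with hf
  have hc : Coarse S gI := coarse_gI T
  have hX : N ≤ 16 * N := by omega
  set c : ℕ → ℕ := fun x => ((Icc i₀ T).filter (fun i => Bad S gI f θ m i x ∧
    δ ≤ av S gI (i + m) f x)).card with hcdef
  have e1 : (((Icc 1 N).filter (fun p => p.Prime ∧ ∃ i ≤ T, av S gI i f (p + s) < δ)).card : ℝ) ≤
      δ * 2 ^ T := by
    have h1 := hL S gI f δ T hc hδ.le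
    have h2 := count_le (T := T) (N := N) (X := 16 * N) (s := s) hX hs
      (fun p => ∃ i ≤ T, av S gI i f (p + s) < δ)
      (fun x => if ∃ i ≤ T, av S gI i f x < δ then 1 else 0)
      (fun x => by split_ifs <;> norm_num)
      (fun p _ _ hp => by rw [if_pos hp])
    have h3 : (S.card : ℝ) = 2 ^ T := by rw [hS, Finset.card_range]; push_cast; rfl
    rw [← h3]
    refine h2.trans (le_trans (le_of_eq ?_) h1)
    rw [Finset.sum_filter]
    refine Finset.sum_congr rfl fun x _ => ?_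
    split_ifs <;> simp [hf]
  have e2 : (((Icc 1 N).filter (fun p => p.Prime ∧
      ∃ i, i₀ ≤ i ∧ i ≤ T ∧ Λ < av S gI i f (p + s))).card : ℝ) ≤ En₀ / Λ := by
    have h1 := hU S gI f Λ i₀ T hc hΛ
    have h2 := count_le (T := T) (N := N) (X := 16 * N) (s := s) hX hs
      (fun p => ∃ i, i₀ ≤ i ∧ i ≤ T ∧ Λ < av S gI i f (p + s))
      (fun x => if ∃ i, i₀ ≤ i ∧ i ≤ T ∧ Λ < av S gI i f x then 1 else 0)
      (fun x => by split_ifs <;> norm_num)
      (fun p _ _ hp => by rw [if_pos hp])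
    refine h2.trans (le_trans (le_of_eq ?_) (h1.trans ?_))
    · rw [Finset.sum_filter]
      refine Finset.sum_congr rfl fun x _ => ?_
      split_ifs <;> simp [hf]
    · exact div_le_div_of_nonneg_right hEn hΛ.le
  have e3 : (((Icc 1 N).filter (fun p => p.Prime ∧ M < (c (p + s) : ℝ))).card : ℝ) ≤
      (2 ^ m / (δ * θ ^ 2) * m * En₀) / M := by
    have h1 := hB S gI f θ δ (2 ^ m) m i₀ T hc hθ hδ (by positivity) (by
      intro i hi y hy
      rw [hS, card_cl_gI hi (by simpa [hS] using hy)]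
      have := card_cl_gI_le T (i + m) y
      have h2 : ((cl (range (2 ^ T)) gI (i + m) y).card : ℝ) ≤ ((2 ^ (i + m) : ℕ) : ℝ) := by
        exact_mod_cast this
      refine h2.trans (le_of_eq ?_)
      push_cast; rw [pow_add]; ring)
    have h2 := count_le (T := T) (N := N) (X := 16 * N) (s := s) hX hs
      (fun p => M < (c (p + s) : ℝ))
      (fun x => (c x : ℝ) / M)
      (fun x => by positivity)
      (fun p _ _ hp => by rw [le_div_iff₀ hM]; linarith)
    refine h2.trans ?_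
    have h3 : ∑ x ∈ S, f x * ((c x : ℝ) / M) = (∑ x ∈ S, f x * (c x : ℝ)) / M := by
      rw [Finset.sum_div]; exact Finset.sum_congr rfl fun x _ => by ring
    rw [h3]
    refine div_le_div_of_nonneg_right (h1.trans ?_) hM.le
    exact mul_le_mul_of_nonneg_left hEn (by positivity)
  have hsub : (Icc 1 N).filter (fun p => p.Prime ∧ ¬ Ok N T s i₀ m δ Λ M θ p) ⊆
      (Icc 1 N).filter (fun p => p.Prime ∧ ∃ i ≤ T, av S gI i f (p + s) < δ) ∪
      ((Icc 1 N).filter (fun p => p.Prime ∧ ∃ i, i₀ ≤ i ∧ i ≤ T ∧ Λ < av S gI i f (p + s)) ∪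
      (Icc 1 N).filter (fun p => p.Prime ∧ M < (c (p + s) : ℝ))) := by
    intro p hp
    rw [Finset.mem_filter] at hp
    obtain ⟨hp1, hp2, hp3⟩ := hp
    by_contra hcon
    rw [Finset.mem_union, Finset.mem_union, Finset.mem_filter, Finset.mem_filter,
      Finset.mem_filter] at hcon
    push Not at hcon
    obtain ⟨k1, k2, k3⟩ := hcon
    refine hp3 ⟨?_, ?_, ?_⟩
    · intro i hi; exact k1 hp1 hp2 i hi
    · intro i h1 h2; exact k2 hp1 hp2 i h1 h2
    · exact k3 hp1 hp2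
  have h1 := Finset.card_le_card hsub
  have h2 := h1.trans (Finset.card_union_le _ _)
  have h3 := Finset.card_union_le
    ((Icc 1 N).filter (fun p => p.Prime ∧ ∃ i, i₀ ≤ i ∧ i ≤ T ∧ Λ < av S gI i f (p + s)))
    ((Icc 1 N).filter (fun p => p.Prime ∧ M < (c (p + s) : ℝ)))
  have h4 : (((Icc 1 N).filter (fun p => p.Prime ∧ ¬ Ok N T s i₀ m δ Λ M θ p)).card : ℝ) ≤
      ((Icc 1 N).filter (fun p => p.Prime ∧ ∃ i ≤ T, av S gI i f (p + s) < δ)).card +
      (((Icc 1 N).filter (fun p => p.Prime ∧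
        ∃ i, i₀ ≤ i ∧ i ≤ T ∧ Λ < av S gI i f (p + s))).card +
      ((Icc 1 N).filter (fun p => p.Prime ∧ M < (c (p + s) : ℝ))).card) := by
    exact_mod_cast h2.trans (Nat.add_le_add_left h3 _)
  linarith

/-- elementary inequalities on the number `m` -/
theorem exists_m {K η : ℝ} (hK : 1 ≤ K) (hη : 0 < η) (hη1 : η ≤ 1) :
    ∃ m : ℕ, 3 ≤ m ∧ 32 * K / (η / 32) ≤ 2 ^ m ∧ (2 : ℝ) ^ m ≤ 2048 * (K / η) ∧
      (m : ℝ) ≤ 16 * Real.log (2 * K / η) := by
  have h1 : (1 : ℝ) ≤ K / η := by rw [le_div_iff₀ hη]; linarith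
  obtain ⟨m, hm1, hm2⟩ := exists_nat_pow_near (y := (2 : ℝ)) (x := 1024 * (K / η)) (by linarith)
    (by norm_num)
  refine ⟨m + 1, ?_, ?_, ?_, ?_⟩
  · by_contra hcon
    have h2 : m + 1 ≤ 3 := by omega
    have h3 : (2 : ℝ) ^ (m + 1) ≤ 2 ^ 3 := pow_le_pow_right₀ (by norm_num) h2
    norm_num at h3
    linarith
  · have : 32 * K / (η / 32) = 1024 * (K / η) := by field_simp; norm_num
    rw [this]; exact hm2.le
  · rw [pow_succ]; linarith
  · have h2 : (2 : ℝ) ^ (m + 1) ≤ 2 ^ 10 * (2 * K / η) := by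
      rw [pow_succ]
      have : 2 * K / η = 2 * (K / η) := by ring
      rw [this]; norm_num; linarith
    have h3 := Real.log_le_log (by positivity) h2
    rw [Real.log_mul (by positivity) (by positivity), Real.log_pow, Real.log_pow] at h3
    have h4 : Real.log 2 ≤ Real.log (2 * K / η) := by
      apply Real.log_le_log (by norm_num)
      have : 2 * K / η = 2 * (K / η) := by ring
      rw [this]; linarith
    have h5 := Real.log_two_gt_d9
    push_cast at h3 ⊢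
    nlinarith

theorem exists_a {N : ℕ} (hN : 2 ≤ N) : ∃ a : ℕ, 16 * N ≤ 4 ^ a ∧ 4 ^ a ≤ 64 * N := by
  obtain ⟨a, ha1, ha2⟩ := exists_nat_pow_near (y := 4) (x := 16 * N) (by omega) (by norm_num)
  exact ⟨a + 1, ha2.le, by rw [pow_succ]; omega⟩

theorem exists_i₀ {N : ℕ} (hN : 2 ≤ N) : ∃ i₀ : ℕ, Real.log N ≤ 2 ^ i₀ ∧
    (2 : ℝ) ^ i₀ ≤ 2 * Real.log N ∧ ∀ l : ℕ, Real.log N ≤ 2 ^ l → i₀ ≤ l := by
  have hex : ∃ i : ℕ, Real.log N ≤ 2 ^ i := by
    obtain ⟨i, hi⟩ := pow_unbounded_of_one_lt (Real.log N) (by norm_num : (1 : ℝ) < 2)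
    exact ⟨i, hi.le⟩
  classical
  refine ⟨Nat.find hex, Nat.find_spec hex, ?_, fun l hl => Nat.find_min' hex hl⟩
  have h2 : Real.log 2 ≤ Real.log N := Real.log_le_log (by norm_num) (by exact_mod_cast hN)
  have h5 := Real.log_two_gt_d9
  rcases Nat.eq_zero_or_pos (Nat.find hex) with h | h
  · rw [h]; norm_num; linarith
  · have h3 := Nat.find_min hex (m := Nat.find hex - 1) (by omega)
    have h4 : (2 : ℝ) ^ (Nat.find hex) = 2 * 2 ^ (Nat.find hex - 1) := by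
      rw [← pow_succ']; congr 1; omega
    rw [h4]
    have := not_le.1 h3
    linarith

theorem i₀_le {N a i₀ : ℕ} (hN : 2 ≤ N) (ha : 16 * N ≤ 4 ^ a) (hi : (2 : ℝ) ^ i₀ ≤ 2 * Real.log N) :
    i₀ ≤ 2 * a + 1 := by
  have h1 : Real.log N ≤ N := (Real.log_le_self (by positivity))
  have h2 : (2 : ℝ) ^ i₀ ≤ ((16 * N : ℕ) : ℝ) := by
    push_cast
    have : (0 : ℝ) ≤ N := by positivity
    linarith
  have h3 : 2 ^ i₀ ≤ 2 ^ (2 * a) := by
    rw [← cast_four]
    have : 2 ^ i₀ ≤ 16 * N := by exact_mod_cast h2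
    omega
  have := (Nat.pow_le_pow_iff_right (by norm_num : 1 < 2)).1 h3
  omega

open scoped Classical in
theorem main (hL : S_maxL) (hU : S_maxU) (hB : S_badm) (hJ : S_jump) (hbase : S_base)
    (hG : S_grid) (hE : S_equi) :
    ∃ C : ℝ, 0 < C ∧ ∀ N : ℕ, 2 ≤ N → ∀ ε : ℝ, 0 < ε → ε ≤ 1 → ∀ K : ℝ, 1 ≤ K →
      ∀ η : ℝ, 0 < η → η ≤ 1 →
      (((Icc 1 N).filter (fun p => p.Prime ∧ ¬ Good C N ε K η p)).card : ℝ) ≤
        ε * (N / Real.log N) := by
  obtain ⟨D, hD, hbase⟩ := hbase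
  refine ⟨2 ^ 41 * (D + 1), by positivity, ?_⟩
  intro N hN ε hε hε1 K hK η hη hη1
  obtain ⟨a, ha1, ha2⟩ := exists_a hN
  obtain ⟨i₀, hi1, hi2, hi3⟩ := exists_i₀ hN
  obtain ⟨m, hm3, hm1, hm2, hm4⟩ := exists_m hK hη hη1
  have hi₀T := i₀_le hN ha1 hi2
  set T := 2 * a + 1 with hT
  set s₁ := (4 ^ a - 1) / 3 with hs₁
  set Lg := Real.log N with hLg
  have hN0 : (0 : ℝ) < N := by exact_mod_cast (by omega : 0 < N)
  have hLg0 : 0 < Lg := Real.log_pos (by exact_mod_cast (by omega : 1 < N))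
  have hT2 : 2 ^ T ≤ 128 * N := by
    rw [hT, pow_succ, ← cast_four]; omega
  have hT2r : (2 : ℝ) ^ T ≤ 128 * N := by exact_mod_cast hT2
  set E₀ := D * N / Lg ^ 2 with hE₀
  have hE₀0 : 0 < E₀ := by positivity
  have hEn : ∀ s, En (range (2 ^ T)) gI (pf (16 * N) s) i₀ ≤ E₀ := fun s =>
    hbase N hN s T i₀ hi1 hi2 hi₀T hT2
  set θ := η / 32 with hθ
  have hθ0 : 0 < θ := by positivity
  have hθ1 : θ ≤ 1 / 32 := by rw [hθ]; linarith
  set δ := ε / (1024 * Lg) with hδ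
  have hδ0 : 0 < δ := by positivity
  set Λ := 8 * D / (ε * Lg) with hΛ
  have hΛ0 : 0 < Λ := by positivity
  have hm0 : (0 : ℝ) < m := by exact_mod_cast (by omega : 0 < m)
  set M := 8192 * 2 ^ m * m * D / (ε ^ 2 * θ ^ 2) with hM
  have hM0 : 0 < M := by positivity
  set M₂ := 16384 * D / (ε ^ 2 * θ ^ 2) with hM₂
  have hM₂0 : 0 < M₂ := by positivity
  obtain ⟨J, hJ1, hJ2⟩ := hJ (range (2 ^ T)) gI (pf (16 * N) 0) θ δ i₀ T (coarse_gI T)
    (fun x _ => pf_nonneg _ _ _) hθ0 (by linarith) hδ0 hi₀T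
  have hs0 : N + 0 < 2 ^ T := by
    rw [hT, pow_succ, ← cast_four]; omega
  have hs1 : N + s₁ < 2 ^ T := by
    rw [hT, pow_succ, ← cast_four]; omega
  have g0 := grid_exc hL hU hB (i₀ := i₀) (m := m) (θ := θ) hs0 hδ0 hΛ0 hM0 hθ0 (hEn 0)
  have g1 := grid_exc hL hU hB (i₀ := i₀) (m := m) (θ := θ) hs1 hδ0 hΛ0 hM0 hθ0 (hEn s₁)
  -- the numerical values
  have v1 : δ * 2 ^ T ≤ ε / 8 * (N / Lg) := by
    have : δ * 2 ^ T ≤ δ * (128 * N) := mul_le_mul_of_nonneg_left hT2r hδ0.le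
    refine this.trans (le_of_eq ?_)
    rw [hδ]; field_simp; norm_num
  have v2 : E₀ / Λ ≤ ε / 8 * (N / Lg) := by
    refine le_of_eq ?_
    rw [hE₀, hΛ]; field_simp
  have v3 : (2 ^ m / (δ * θ ^ 2) * m * E₀) / M ≤ ε / 8 * (N / Lg) := by
    refine le_of_eq ?_
    rw [hM, hE₀, hδ]; field_simp; norm_num
  have v4 : (2 / (δ * θ ^ 2) * E₀) / M₂ ≤ ε / 8 * (N / Lg) := by
    refine le_of_eq ?_
    rw [hM₂, hE₀, hδ]; field_simp; norm_num
  have e4 : (((Icc 1 N).filter (fun p => p.Prime ∧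
      ((∀ i ∈ Icc i₀ T, δ ≤ av (range (2 ^ T)) gI i (pf (16 * N) 0) p) ∧
        M₂ < ((J p).card : ℝ)))).card : ℝ) ≤ ε / 8 * (N / Lg) := by
    refine le_trans ?_ v4
    have h2 := count_le (T := T) (N := N) (X := 16 * N) (s := 0) (by omega) hs0
      (fun p => (∀ i ∈ Icc i₀ T, δ ≤ av (range (2 ^ T)) gI i (pf (16 * N) 0) p) ∧
        M₂ < ((J p).card : ℝ))
      (fun x => (if ∀ i ∈ Icc i₀ T, δ ≤ av (range (2 ^ T)) gI i (pf (16 * N) 0) x then
        ((J x).card : ℝ) else 0) / M₂)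
      (fun x => by split_ifs <;> positivity)
      (fun p _ _ hp => by
        rw [Nat.add_zero, if_pos hp.1, le_div_iff₀ hM₂0]; linarith [hp.2])
    refine h2.trans ?_
    have h3 : ∑ x ∈ range (2 ^ T), pf (16 * N) 0 x *
        ((if ∀ i ∈ Icc i₀ T, δ ≤ av (range (2 ^ T)) gI i (pf (16 * N) 0) x then
        ((J x).card : ℝ) else 0) / M₂) = (∑ x ∈ range (2 ^ T), pf (16 * N) 0 x *
        (if ∀ i ∈ Icc i₀ T, δ ≤ av (range (2 ^ T)) gI i (pf (16 * N) 0) x then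
        ((J x).card : ℝ) else 0)) / M₂ := by
      rw [Finset.sum_div]; exact Finset.sum_congr rfl fun x _ => by ring
    rw [h3]
    refine div_le_div_of_nonneg_right (hJ2.trans ?_) hM₂0.le
    exact mul_le_mul_of_nonneg_left (hEn 0) (by positivity)
  have hsub : (Icc 1 N).filter (fun p => p.Prime ∧ ¬ Good (2 ^ 41 * (D + 1)) N ε K η p) ⊆
      (Icc 1 N).filter (fun p => p.Prime ∧ ¬ Ok N T 0 i₀ m δ Λ M θ p) ∪
      ((Icc 1 N).filter (fun p => p.Prime ∧ ¬ Ok N T s₁ i₀ m δ Λ M θ p) ∪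
      (Icc 1 N).filter (fun p => p.Prime ∧
      ((∀ i ∈ Icc i₀ T, δ ≤ av (range (2 ^ T)) gI i (pf (16 * N) 0) p) ∧
        M₂ < ((J p).card : ℝ)))) := by
    intro p hp
    rw [Finset.mem_filter] at hp
    obtain ⟨hp1, hp2, hp3⟩ := hp
    by_contra hcon
    rw [Finset.mem_union, Finset.mem_union, Finset.mem_filter, Finset.mem_filter,
      Finset.mem_filter] at hcon
    push Not at hcon
    obtain ⟨k1, k2, k3⟩ := hcon
    have ok0 := k1 hp1 hp2
    have ok1 := k2 hp1 hp2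
    have hJp : ((J p).card : ℝ) ≤ M₂ := k3 hp1 hp2 (fun i hi => by
      rw [Finset.mem_Icc] at hi
      have := ok0.lo i hi.2
      rwa [Nat.add_zero] at this)
    refine hp3 ?_
    have hpT : p < 2 ^ T := by
      rw [Finset.mem_Icc] at hp1; omega
    refine det hE hG hN ha1 (Finset.mem_Icc.1 hp1).2 hK hη hη1 hm1 hm3 hi3 ok0 ok1 (J p)
      (fun i i' h1 h2 h3 h4 => hJ1 p (by rw [Finset.mem_range]; exact hpT) i i' h1 h2 h3 h4) hJp
      (by positivity) hε ?_ ?_ ?_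
    · rw [hδ, div_div]
      refine div_le_div_of_nonneg_left hε.le (by positivity) ?_
      refine mul_le_mul_of_nonneg_right ?_ hLg0.le
      nlinarith
    · rw [hΛ, div_div]
      have : 8 * (8 * D / (ε * Lg)) = 64 * D / (ε * Lg) := by ring
      rw [this]
      refine div_le_div_of_nonneg_right ?_ (by positivity)
      nlinarith
    · -- the number of exceptional scales
      set Lk := Real.log (2 * K / η) with hLk
      have hKη : (1 : ℝ) ≤ K / η := by rw [le_div_iff₀ hη]; linarith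
      have hLk2 : 1 / 2 ≤ Lk := by
        have h4 : Real.log 2 ≤ Real.log (2 * K / η) := by
          apply Real.log_le_log (by norm_num)
          have : 2 * K / η = 2 * (K / η) := by ring
          rw [this]; linarith
        have h5 := Real.log_two_gt_d9
        linarith
      set U := K * Lk / (η ^ 3 * ε ^ 2) with hU
      have hη3 : η ^ 3 ≤ 1 := pow_le_one₀ hη.le hη1
      have hε2 : ε ^ 2 ≤ 1 := pow_le_one₀ hε.le hε1
      have hηε : η ^ 3 * ε ^ 2 ≤ 1 := mul_le_one₀ hη3 (by positivity) hε2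
      have hLk0 : 0 < Lk := by linarith
      have a1 : Lk ≤ U := by
        rw [hU, le_div_iff₀ (by positivity)]
        have : Lk * (η ^ 3 * ε ^ 2) ≤ Lk * 1 := mul_le_mul_of_nonneg_left hηε hLk0.le
        nlinarith
      have a2 : 2 ^ m * m / (ε ^ 2 * θ ^ 2) ≤ 2 ^ 25 * U := by
        have b1 : (2 : ℝ) ^ m * m ≤ 2048 * (K / η) * (16 * Lk) :=
          mul_le_mul hm2 hm4 hm0.le (by positivity)
        have b2 : 2 ^ m * m / (ε ^ 2 * θ ^ 2) ≤ 2048 * (K / η) * (16 * Lk) / (ε ^ 2 * θ ^ 2) :=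
          div_le_div_of_nonneg_right b1 (by positivity)
        refine b2.trans (le_of_eq ?_)
        rw [hU, hθ]; field_simp; norm_num
      have a3 : 1 / (ε ^ 2 * θ ^ 2) ≤ 2 ^ 11 * U := by
        have b1 : 1 / (ε ^ 2 * θ ^ 2) = 1024 / (ε ^ 2 * η ^ 2) := by
          rw [hθ]; field_simp; norm_num
        rw [b1, hU, ← mul_div_assoc, div_le_div_iff₀ (by positivity) (by positivity)]
        have b2 : 1024 ≤ 2 ^ 11 * (K * Lk) := by nlinarith
        have b3 : η ^ 3 * ε ^ 2 ≤ ε ^ 2 * η ^ 2 := by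
          have : η ^ 3 = η ^ 2 * η := by ring
          have h6 : η ^ 2 * η ≤ η ^ 2 * 1 := mul_le_mul_of_nonneg_left hη1 (by positivity)
          nlinarith [sq_nonneg ε]
        calc 1024 * (η ^ 3 * ε ^ 2) ≤ 1024 * (ε ^ 2 * η ^ 2) := by linarith
          _ ≤ 2 ^ 11 * (K * Lk) * (ε ^ 2 * η ^ 2) :=
            mul_le_mul_of_nonneg_right b2 (by positivity)
      have c1 : M = 8192 * D * (2 ^ m * m / (ε ^ 2 * θ ^ 2)) := by rw [hM]; ring
      have c2 : M₂ = 16384 * D * (1 / (ε ^ 2 * θ ^ 2)) := by rw [hM₂]; ring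
      have c3 : M ≤ 8192 * D * (2 ^ 25 * U) := by
        rw [c1]; exact mul_le_mul_of_nonneg_left a2 (by positivity)
      have c4 : M₂ ≤ 16384 * D * (2 ^ 11 * U) := by
        rw [c2]; exact mul_le_mul_of_nonneg_left a3 (by positivity)
      have c5 : 2 ^ 41 * (D + 1) * K * Lk / (η ^ 3 * ε ^ 2) = 2 ^ 41 * (D + 1) * U := by
        rw [hU]; ring
      rw [c5]
      have hU0 : 0 < U := by linarith
      have hDU : 0 < D * U := by positivity
      nlinarith
  have h1 := Finset.card_le_card hsub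
  have h2 := h1.trans (Finset.card_union_le _ _)
  have h3 := Finset.card_union_le
    ((Icc 1 N).filter (fun p => p.Prime ∧ ¬ Ok N T s₁ i₀ m δ Λ M θ p))
    ((Icc 1 N).filter (fun p => p.Prime ∧
      ((∀ i ∈ Icc i₀ T, δ ≤ av (range (2 ^ T)) gI i (pf (16 * N) 0) p) ∧
        M₂ < ((J p).card : ℝ))))
  have h4 : (((Icc 1 N).filter (fun p => p.Prime ∧
      ¬ Good (2 ^ 41 * (D + 1)) N ε K η p)).card : ℝ) ≤
      ((Icc 1 N).filter (fun p => p.Prime ∧ ¬ Ok N T 0 i₀ m δ Λ M θ p)).card +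
      (((Icc 1 N).filter (fun p => p.Prime ∧ ¬ Ok N T s₁ i₀ m δ Λ M θ p)).card +
      ((Icc 1 N).filter (fun p => p.Prime ∧
      ((∀ i ∈ Icc i₀ T, δ ≤ av (range (2 ^ T)) gI i (pf (16 * N) 0) p) ∧
        M₂ < ((J p).card : ℝ)))).card) := by
    exact_mod_cast h2.trans (Nat.add_le_add_left h3 _)
  have hNL : 0 < ε * (N / Lg) := by positivity
  have q0 := g0.trans (add_le_add (add_le_add v1 v2) v3)
  have q1 := g1.trans (add_le_add (add_le_add v1 v2) v3)
  refine (h4.trans (add_le_add q0 (add_le_add q1 e4))).trans ?_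
  nlinarith

end Pool.Agent.NH18.SC
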