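import Pool.Agent.NH18.SC.Stm

/-!
# SC-5: the two dyadic grids (helper73)
-/

set_option autoImplicit false

namespace Pool.Agent.NH18.SC.Grid

/-- the quotient from a bound -/
theorem div_of (M y k : ℕ) (h1 : M * k ≤ y) (h2 : y < M * k + M) : y / M = k := by
  have hM : 0 < M := by omega
  rw [Nat.div_eq_iff hM]
  constructor
  · rw [mul_comm k M]
    exact h1
  · rw [mul_comm k M]
    omega

theorem four (a : ℕ) : 3 * ((4 ^ a - 1) / 3) + 1 = 4 ^ a := by
  have h1 : 4 ^ a % 3 = 1 := by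
    rw [Nat.pow_mod]
    norm_num
  generalize 4 ^ a = n at h1 ⊢
  omega

theorem sig (M s c : ℕ) (hM : 0 < M) (h : 3 * s + 1 = M * c) :
    3 * (s % M) + 1 = M ∨ 3 * (s % M) + 1 = 2 * M := by
  have h1 := Nat.div_add_mod s M
  have h2 := Nat.mod_lt s hM
  generalize s % M = σ at h1 h2 ⊢
  generalize s / M = k at h1
  have h3 : 3 * σ + 1 + M * (3 * k) = M * c := by
    rw [← h, ← h1]
    ring
  have h4 : 3 * k < c := by
    by_contra hcon
    have := Nat.mul_le_mul_left M (not_lt.1 hcon)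
    omega
  have h5 : c < 3 * k + 3 := by
    by_contra hcon
    have h6 := Nat.mul_le_mul_left M (not_lt.1 hcon)
    rw [Nat.mul_add] at h6
    omega
  rcases (by omega : c = 3 * k + 1 ∨ c = 3 * k + 2) with rfl | rfl
  · left
    rw [Nat.mul_add] at h3
    omega
  · right
    rw [Nat.mul_add] at h3
    omega

theorem main (L p s : ℕ) (hL : 1 ≤ L)
    (hs : 3 * (s % (8 * L)) + 1 = 8 * L ∨ 3 * (s % (8 * L)) + 1 = 2 * (8 * L)) :
    (∀ x, p < x + L → x ≤ p + L → x / (8 * L) = p / (8 * L)) ∨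
    (∀ x, p < x + L → x ≤ p + L → (x + s) / (8 * L) = (p + s) / (8 * L)) := by
  have hp := Nat.div_add_mod p (8 * L)
  have hp2 := Nat.mod_lt p (by omega : 0 < 8 * L)
  have hs1 := Nat.div_add_mod s (8 * L)
  generalize hr : p % (8 * L) = r at hp hp2
  generalize s % (8 * L) = σ at hs hs1
  generalize hk : p / (8 * L) = k at hp
  generalize s / (8 * L) = k' at hs1
  by_cases h : L ≤ r + 1 ∧ r + 1 ≤ 7 * L
  · left
    intro x hx1 hx2
    apply div_of
    · omega
    · omega
  · right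
    intro x hx1 hx2
    by_cases h1 : r + 1 < L
    · have e : 8 * L * (k + k') = 8 * L * k + 8 * L * k' := by ring
      have e1 : (x + s) / (8 * L) = k + k' := by
        apply div_of <;> omega
      have e2 : (p + s) / (8 * L) = k + k' := by
        apply div_of <;> omega
      rw [e1, e2]
    · have e : 8 * L * (k + k' + 1) = 8 * L * k + 8 * L * k' + 8 * L := by ring
      have e1 : (x + s) / (8 * L) = k + k' + 1 := by
        apply div_of <;> omega
      have e2 : (p + s) / (8 * L) = k + k' + 1 := by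
        apply div_of <;> omega
      rw [e1, e2]

end Pool.Agent.NH18.SC.Grid

namespace Pool.Agent.NH18.SC

theorem t_grid : S_grid := by
  intro a l p h1 h2
  have e8 : 2 ^ (l + 3) = 8 * 2 ^ l := by ring
  have hd : ∃ c, 4 ^ a = (8 * 2 ^ l) * c := by
    have h4 : (4 : ℕ) ^ a = 2 ^ (2 * a) := by
      rw [pow_mul]
      norm_num
    rw [h4, ← e8]
    exact pow_dvd_pow 2 h1
  obtain ⟨c, hc⟩ := hd
  rw [e8]
  have hL : 1 ≤ 2 ^ l := Nat.one_le_two_pow
  refine Grid.main (2 ^ l) p ((4 ^ a - 1) / 3) hL (Grid.sig _ _ c (by omega) ?_)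
  rw [Grid.four, hc]

end Pool.Agent.NH18.SC
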