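import Pool.Agent.NH18.SC.Stm

/-!
# The jump inequality for conditional expectations
-/

set_option autoImplicit false
set_option linter.unusedSectionVars false
set_option linter.unusedVariables false

namespace Pool.Agent.NH18.SC

open Finset

namespace Jump

theorem av_nonneg {S : Finset ℕ} {g : ℕ → ℕ → ℕ} {f : ℕ → ℝ} (hf : ∀ x ∈ S, 0 ≤ f x) (i x : ℕ) :
    0 ≤ av S g i f x :=
  div_nonneg (sum_nonneg fun y hy => hf y (mem_filter.1 hy).1) (Nat.cast_nonneg _)

/-- the reference values -/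
noncomputable def ref (S : Finset ℕ) (g : ℕ → ℕ → ℕ) (f : ℕ → ℝ) (θ : ℝ) (R : ℕ) : ℕ → ℕ → ℝ
  | 0, x => av S g R f x
  | n + 1, x =>
    if θ * ref S g f θ R n x < |av S g (R - (n + 1)) f x - ref S g f θ R n x| then
      av S g (R - (n + 1)) f x else ref S g f θ R n x

section

variable {S : Finset ℕ} {g : ℕ → ℕ → ℕ} {f : ℕ → ℝ} {θ : ℝ} {R : ℕ}

/-- a jump -/
def IsJ (S : Finset ℕ) (g : ℕ → ℕ → ℕ) (f : ℕ → ℝ) (θ : ℝ) (R n x : ℕ) : Prop :=
  θ * ref S g f θ R n x < |av S g (R - (n + 1)) f x - ref S g f θ R n x|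

theorem ref_zero (x : ℕ) : ref S g f θ R 0 x = av S g R f x := rfl

theorem ref_jump {n x : ℕ} (h : IsJ S g f θ R n x) :
    ref S g f θ R (n + 1) x = av S g (R - (n + 1)) f x := by
  rw [ref]
  exact if_pos h

theorem ref_not {n x : ℕ} (h : ¬ IsJ S g f θ R n x) :
    ref S g f θ R (n + 1) x = ref S g f θ R n x := by
  rw [ref]
  exact if_neg h

/-- the reference value is one of the averages -/
theorem ref_ex (n x : ℕ) : ∃ m ≤ n, ref S g f θ R n x = av S g (R - m) f x := by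
  induction n with
  | zero => exact ⟨0, le_rfl, rfl⟩
  | succ n ih =>
    by_cases h : IsJ S g f θ R n x
    · exact ⟨n + 1, le_rfl, ref_jump h⟩
    · obtain ⟨m, hm, h1⟩ := ih
      exact ⟨m, by omega, (ref_not h).trans h1⟩

theorem ref_nonneg (hf : ∀ x ∈ S, 0 ≤ f x) (n x : ℕ) : 0 ≤ ref S g f θ R n x := by
  obtain ⟨m, -, h⟩ := ref_ex (S := S) (g := g) (f := f) (θ := θ) (R := R) n x
  rw [h]
  exact av_nonneg hf _ _

theorem close (hf : ∀ x ∈ S, 0 ≤ f x) (hθ : 0 < θ) (n x : ℕ) :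
    |av S g (R - n) f x - ref S g f θ R n x| ≤ θ * ref S g f θ R n x := by
  have h0 : ∀ a b : ℝ, a = b → 0 ≤ b → |a - b| ≤ θ * b := by
    intro a b hab hb
    rw [hab, sub_self, abs_zero]
    exact mul_nonneg hθ.le hb
  cases n with
  | zero => exact h0 _ _ rfl (ref_nonneg hf _ _)
  | succ n =>
    by_cases h : IsJ S g f θ R n x
    · exact h0 _ _ (ref_jump h).symm (ref_nonneg hf _ _)
    · rw [ref_not h]
      exact not_lt.1 h

theorem const {n' x : ℕ} (n : ℕ) (hn : n' ≤ n) (h : ∀ m, n' ≤ m → m < n → ¬ IsJ S g f θ R m x) :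
    ref S g f θ R n x = ref S g f θ R n' x := by
  induction n, hn using Nat.le_induction with
  | base => rfl
  | succ n hn ih =>
    rw [ref_not (h n hn (Nat.lt_succ_self n)), ih fun m h1 h2 => h m h1 (by omega)]

theorem ref_meas (hc : Coarse S g) (n : ℕ) : Meas S g (R - n) (ref S g f θ R n) := by
  induction n with
  | zero => exact av_meas S g R f
  | succ n ih =>
    intro x hx y hy hxy
    have h1 := ih.mono hc (show R - (n + 1) ≤ R - n by omega) x hx y hy hxy
    have h2 := av_meas S g (R - (n + 1)) f x hx y hy hxy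
    rw [ref, ref, h1, h2]

theorem jump_meas (hc : Coarse S g) (n : ℕ) {x y : ℕ} (hx : x ∈ S) (hy : y ∈ S)
    (hxy : g (R - (n + 1)) x = g (R - (n + 1)) y) :
    (IsJ S g f θ R n x ↔ IsJ S g f θ R n y) ∧ ref S g f θ R n x = ref S g f θ R n y := by
  have h1 := (ref_meas (f := f) (θ := θ) (R := R) hc n).mono hc
    (show R - (n + 1) ≤ R - n by omega) x hx y hy hxy
  have h2 := av_meas S g (R - (n + 1)) f x hx y hy hxy
  unfold IsJ
  rw [h1, h2]
  exact ⟨Iff.rfl, rfl⟩

/-- the increments -/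
noncomputable def D (S : Finset ℕ) (g : ℕ → ℕ → ℕ) (f : ℕ → ℝ) (θ : ℝ) (R n x : ℕ) : ℝ :=
  ref S g f θ R (n + 1) x - ref S g f θ R n x

theorem D_meas (hc : Coarse S g) (n : ℕ) : Meas S g (R - (n + 1)) (D S g f θ R n) := by
  intro x hx y hy hxy
  have h1 := ref_meas (f := f) (θ := θ) (R := R) hc (n + 1) x hx y hy hxy
  have h2 := (jump_meas (f := f) (θ := θ) hc n hx hy hxy).2
  unfold D
  rw [h1, h2]

theorem D_mul (n x : ℕ) : D S g f θ R n x *
    (D S g f θ R n x - (av S g (R - (n + 1)) f x - ref S g f θ R n x)) = 0 := by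
  unfold D
  by_cases h : IsJ S g f θ R n x
  · rw [ref_jump h]; ring
  · rw [ref_not h]; ring

theorem step (hc : Coarse S g) {i₀ n : ℕ} (hi : i₀ ≤ R - (n + 1)) :
    ∑ x ∈ S, D S g f θ R n x ^ 2 =
      ∑ x ∈ S, (av S g i₀ f x - ref S g f θ R n x) ^ 2 -
        ∑ x ∈ S, (av S g i₀ f x - ref S g f θ R (n + 1) x) ^ 2 := by
  have h1 := sum_av S g (R - (n + 1)) f _ (D_meas (f := f) (θ := θ) hc n)
  have h2 := sum_av S g i₀ f _ ((D_meas (f := f) (θ := θ) hc n).mono hc hi)
  have h3 : ∑ x ∈ S, (av S g i₀ f x * D S g f θ R n x -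
      av S g (R - (n + 1)) f x * D S g f θ R n x) = 0 := by
    rw [sum_sub_distrib, ← h1, ← h2, sub_self]
  rw [← sum_sub_distrib, ← sub_eq_zero, ← sum_sub_distrib]
  have h4 : ∀ x ∈ S, D S g f θ R n x ^ 2 - ((av S g i₀ f x - ref S g f θ R n x) ^ 2 -
      (av S g i₀ f x - ref S g f θ R (n + 1) x) ^ 2) =
      (-2) * (av S g i₀ f x * D S g f θ R n x - av S g (R - (n + 1)) f x * D S g f θ R n x) := by
    intro x _
    have h5 := D_mul (S := S) (g := g) (f := f) (θ := θ) (R := R) n x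
    have h6 : ref S g f θ R (n + 1) x = ref S g f θ R n x + D S g f θ R n x := by
      unfold D; ring
    rw [h6]
    linear_combination 2 * h5
  rw [sum_congr rfl h4, ← mul_sum, h3, mul_zero]

theorem energy (hc : Coarse S g) {i₀ : ℕ} (hi : i₀ ≤ R) :
    ∑ n ∈ range (R - i₀), ∑ x ∈ S, D S g f θ R n x ^ 2 ≤ En S g f i₀ := by
  have h1 : ∀ N, N ≤ R - i₀ → ∑ n ∈ range N, ∑ x ∈ S, D S g f θ R n x ^ 2 =
      ∑ x ∈ S, (av S g i₀ f x - ref S g f θ R 0 x) ^ 2 -
        ∑ x ∈ S, (av S g i₀ f x - ref S g f θ R N x) ^ 2 := by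
    intro N
    induction N with
    | zero => intro _; rw [sum_range_zero, sub_self]
    | succ N ih =>
      intro hN
      rw [sum_range_succ, ih (by omega), step hc (show i₀ ≤ R - (N + 1) by omega)]
      ring
  rw [h1 _ le_rfl]
  have h2 := En_sub S g hc f i₀ R hi
  have h3 := En_nonneg S g f R
  have h4 : 0 ≤ ∑ x ∈ S, (av S g i₀ f x - ref S g f θ R (R - i₀) x) ^ 2 :=
    sum_nonneg fun _ _ => sq_nonneg _
  have h5 : ∑ x ∈ S, (av S g i₀ f x - ref S g f θ R 0 x) ^ 2 = En S g f i₀ - En S g f R := h2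
  rw [h5]
  linarith

theorem pt {a b δ : ℝ} (ha : 0 ≤ a) (hδ : 0 < δ) (hb : δ ≤ b) (hθ : 0 < θ) (hθ1 : θ ≤ 1 / 2)
    (h : θ * b < |a - b|) : a ≤ 2 / (δ * θ ^ 2) * (a - b) ^ 2 := by
  have hb0 : 0 < b := hδ.trans_le hb
  have h1 : (θ * b) ^ 2 ≤ (a - b) ^ 2 := by
    rw [← sq_abs (a - b)]
    exact pow_le_pow_left₀ (mul_pos hθ hb0).le h.le 2
  rw [div_mul_eq_mul_div, le_div_iff₀ (by positivity)]
  by_cases hab : a ≤ 2 * b
  · -- `a δ θ² ≤ 2 b · b θ² ≤ 2 (a - b)²`
    calc a * (δ * θ ^ 2) ≤ (2 * b) * (b * θ ^ 2) := by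
          apply mul_le_mul hab _ (by positivity) (by positivity)
          exact mul_le_mul_of_nonneg_right hb (by positivity)
      _ = 2 * (θ * b) ^ 2 := by ring
      _ ≤ 2 * (a - b) ^ 2 := by linarith
  · push Not at hab
    have h2 : a ≤ 2 * (a - b) := by linarith
    have h3 : δ ≤ a - b := by linarith
    have h4 : θ ^ 2 ≤ 1 := by nlinarith
    calc a * (δ * θ ^ 2) ≤ (2 * (a - b)) * ((a - b) * 1) := by
          apply mul_le_mul h2 _ (by positivity) (by linarith)
          exact mul_le_mul h3 h4 (by positivity) (by linarith)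
      _ = 2 * (a - b) ^ 2 := by ring

open scoped Classical in
/-- the weights -/
noncomputable def w (S : Finset ℕ) (g : ℕ → ℕ → ℕ) (f : ℕ → ℝ) (θ : ℝ) (R : ℕ) (δ : ℝ)
    (n x : ℕ) : ℝ :=
  if IsJ S g f θ R n x ∧ δ ≤ ref S g f θ R n x then 1 else 0

theorem w_meas (hc : Coarse S g) (δ : ℝ) (n : ℕ) : Meas S g (R - (n + 1)) (w S g f θ R δ n) := by
  intro x hx y hy hxy
  obtain ⟨h1, h2⟩ := jump_meas (f := f) (θ := θ) hc n hx hy hxy
  unfold w
  rw [h2]
  by_cases h : IsJ S g f θ R n y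
  · have := h1.2 h
    simp only [h, this]
  · have : ¬ IsJ S g f θ R n x := fun h' => h (h1.1 h')
    simp only [h, this]

theorem w_sum (hc : Coarse S g) (hf : ∀ x ∈ S, 0 ≤ f x) {δ : ℝ} (hδ : 0 < δ) (hθ : 0 < θ)
    (hθ1 : θ ≤ 1 / 2) (n : ℕ) :
    ∑ x ∈ S, f x * w S g f θ R δ n x ≤ 2 / (δ * θ ^ 2) * ∑ x ∈ S, D S g f θ R n x ^ 2 := by
  rw [sum_av S g (R - (n + 1)) f _ (w_meas hc δ n), mul_sum]
  refine sum_le_sum fun x _ => ?_
  unfold w
  by_cases h : IsJ S g f θ R n x ∧ δ ≤ ref S g f θ R n x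
  · rw [if_pos h, mul_one]
    unfold D
    rw [ref_jump h.1]
    exact pt (av_nonneg hf _ _) hδ h.2 hθ hθ1 h.1
  · rw [if_neg h, mul_zero]
    positivity

end

end Jump

open Jump in
theorem t_jump : S_jump := by
  classical
  intro S g f θ δ i₀ R hc hf hθ hθ1 hδ hi
  refine ⟨fun x => ((range (R - i₀)).filter (fun n => IsJ S g f θ R n x)).image
    (fun n => R - (n + 1)), ?_, ?_⟩
  · intro x hx i i' h1 h2 h3 hJ
    have hn : ∀ m, R - i' ≤ m → m < R - i → ¬ IsJ S g f θ R m x := by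
      intro m hm1 hm2 hj
      have h4 := hJ (R - (m + 1)) (mem_image.2 ⟨m, mem_filter.2 ⟨mem_range.2 (by omega), hj⟩, rfl⟩)
      omega
    have hcon := const (S := S) (g := g) (f := f) (θ := θ) (R := R) (x := x) (R - i)
      (show R - i' ≤ R - i by omega) hn
    have c1 := close (S := S) (g := g) (R := R) hf hθ (R - i) x
    have c2 := close (S := S) (g := g) (R := R) hf hθ (R - i') x
    rw [show R - (R - i) = i by omega, hcon] at c1
    rw [show R - (R - i') = i' by omega] at c2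
    set v := ref S g f θ R (R - i') x with hv
    have hv0 : 0 ≤ v := ref_nonneg hf _ _
    have e1 : |av S g i f x - av S g i' f x| ≤ 2 * (θ * v) := by
      have e2 : av S g i f x - av S g i' f x = (av S g i f x - v) - (av S g i' f x - v) := by ring
      rw [e2]
      refine (abs_sub _ _).trans ?_
      linarith
    have e3 : v ≤ 2 * av S g i' f x := by
      have e4 := (abs_le.1 c2).1
      have e5 : θ * v ≤ 1 / 2 * v := mul_le_mul_of_nonneg_right hθ1 hv0
      linarith
    calc |av S g i f x - av S g i' f x| ≤ 2 * (θ * v) := e1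
      _ ≤ 2 * (θ * (2 * av S g i' f x)) := by
          have := mul_le_mul_of_nonneg_left e3 hθ.le
          linarith
      _ = 4 * θ * av S g i' f x := by ring
  · have key : ∀ x ∈ S, f x * (if ∀ i ∈ Icc i₀ R, δ ≤ av S g i f x then
        (((((range (R - i₀)).filter (fun n => IsJ S g f θ R n x)).image
          (fun n => R - (n + 1))).card : ℕ) : ℝ) else 0) ≤
        f x * ∑ n ∈ range (R - i₀), w S g f θ R δ n x := by
      intro x hx
      refine mul_le_mul_of_nonneg_left ?_ (hf x hx)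
      by_cases h : ∀ i ∈ Icc i₀ R, δ ≤ av S g i f x
      · rw [if_pos h]
        have hcard := card_image_le (s := (range (R - i₀)).filter (fun n => IsJ S g f θ R n x))
          (f := fun n => R - (n + 1))
        refine (Nat.cast_le.2 hcard).trans ?_
        rw [card_filter]
        push_cast
        refine sum_le_sum fun n hn => ?_
        have hδn : δ ≤ ref S g f θ R n x := by
          obtain ⟨m, hm, h1⟩ := ref_ex (S := S) (g := g) (f := f) (θ := θ) (R := R) n x
          rw [h1]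
          have := mem_range.1 hn
          exact h _ (mem_Icc.2 ⟨by omega, by omega⟩)
        unfold w
        by_cases hj : IsJ S g f θ R n x
        · rw [if_pos hj, if_pos ⟨hj, hδn⟩]
        · rw [if_neg hj, if_neg (fun h' => hj h'.1)]
      · rw [if_neg h]
        refine sum_nonneg fun n _ => ?_
        unfold w
        split_ifs
        · exact zero_le_one
        · exact le_rfl
    refine (sum_le_sum key).trans ?_
    have e1 : ∑ x ∈ S, f x * ∑ n ∈ range (R - i₀), w S g f θ R δ n x =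
        ∑ n ∈ range (R - i₀), ∑ x ∈ S, f x * w S g f θ R δ n x := by
      rw [sum_comm]
      exact sum_congr rfl fun x _ => mul_sum _ _ _
    rw [e1]
    refine (sum_le_sum fun n _ => w_sum hc hf hδ hθ hθ1 n).trans ?_
    rw [← mul_sum]
    exact mul_le_mul_of_nonneg_left (energy hc hi) (by positivity)

end Pool.Agent.NH18.SC
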