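import Pool.Agent.NH18.SC.Stm

/-!
# Assembly of the project SC, part 1: blocks, counting, the deterministic part
-/

namespace Pool.Agent.NH18.SC

open Finset

theorem coarse_gI (T : ℕ) : Coarse (range (2 ^ T)) gI := by
  intro i x _ y _ h
  simp only [gI] at h ⊢
  rw [pow_succ, ← Nat.div_div_eq_div_mul, ← Nat.div_div_eq_div_mul, h]

theorem div_eq_iff_mem {M q n : ℕ} (hM : 0 < M) : n / M = q ↔ q * M ≤ n ∧ n < q * M + M := by
  constructor
  · rintro rfl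
    exact ⟨Nat.div_mul_le_self n M, by
      have := Nat.lt_div_mul_add hM (a := n)
      exact this⟩
  · rintro ⟨h1, h2⟩
    apply Nat.div_eq_of_lt_le
    · exact h1
    · rw [Nat.add_mul, Nat.one_mul]; exact h2

theorem cl_gI {T i y : ℕ} (hi : i ≤ T) (hy : y < 2 ^ T) :
    cl (range (2 ^ T)) gI i y = Ico (y / 2 ^ i * 2 ^ i) (y / 2 ^ i * 2 ^ i + 2 ^ i) := by
  ext n
  rw [cl, Finset.mem_filter, Finset.mem_range, Finset.mem_Ico]
  simp only [gI]
  rw [div_eq_iff_mem (by positivity)]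
  constructor
  · rintro ⟨_, h⟩; exact h
  · intro h
    refine ⟨?_, h⟩
    -- n < (y / 2^i + 1) * 2^i ≤ 2^T
    have h1 : y / 2 ^ i < 2 ^ (T - i) := by
      rw [Nat.div_lt_iff_lt_mul (by positivity), ← pow_add]
      rwa [Nat.sub_add_cancel hi]
    have h2 : (y / 2 ^ i + 1) * 2 ^ i ≤ 2 ^ (T - i) * 2 ^ i := Nat.mul_le_mul_right _ h1
    rw [← pow_add, Nat.sub_add_cancel hi, Nat.add_mul, Nat.one_mul] at h2
    omega

theorem card_cl_gI {T i y : ℕ} (hi : i ≤ T) (hy : y < 2 ^ T) :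
    (cl (range (2 ^ T)) gI i y).card = 2 ^ i := by
  rw [cl_gI hi hy, Nat.card_Ico, Nat.add_sub_cancel_left]

theorem card_cl_gI_le (T i y : ℕ) : (cl (range (2 ^ T)) gI i y).card ≤ 2 ^ i := by
  have : cl (range (2 ^ T)) gI i y ⊆ Ico (y / 2 ^ i * 2 ^ i) (y / 2 ^ i * 2 ^ i + 2 ^ i) := by
    intro n hn
    rw [cl, Finset.mem_filter] at hn
    simp only [gI] at hn
    rw [Finset.mem_Ico, ← div_eq_iff_mem (by positivity)]
    exact hn.2
  have h := Finset.card_le_card this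
  rwa [Nat.card_Ico, Nat.add_sub_cancel_left] at h

theorem pf_nonneg (X s n : ℕ) : 0 ≤ pf X s n := by
  unfold pf; split_ifs <;> norm_num

theorem av_nonneg {S : Finset ℕ} {g : ℕ → ℕ → ℕ} {i : ℕ} {f : ℕ → ℝ} (hf : ∀ n, 0 ≤ f n) (x : ℕ) :
    0 ≤ av S g i f x :=
  div_nonneg (Finset.sum_nonneg fun _ _ => hf _) (Nat.cast_nonneg _)

/-- the sum over the dyadic block of `y` -/
theorem av_gI {T i y : ℕ} (hi : i ≤ T) (hy : y < 2 ^ T) (f : ℕ → ℝ) :
    (2 : ℝ) ^ i * av (range (2 ^ T)) gI i f y =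
      ∑ n ∈ Ico (y / 2 ^ i * 2 ^ i) (y / 2 ^ i * 2 ^ i + 2 ^ i), f n := by
  have h2 : (2 : ℝ) ^ i ≠ 0 := by positivity
  rw [av, card_cl_gI hi hy, cl_gI hi hy]
  push_cast
  field_simp

theorem pf_sum {X : ℕ} (s : ℕ) {x h : ℕ} (hX : x + h ≤ X) :
    ∑ n ∈ Ico (x + 1 + s) (x + 1 + s + h), pf X s n = P x (x + h) := by
  rw [P, Finset.card_filter]
  push_cast
  have e : ∑ n ∈ Ioc x (x + h), (if n.Prime then (1 : ℝ) else 0) =
      ∑ n ∈ Ico (x + 1 + s) (x + 1 + s + h), pf X s n := by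
    refine Finset.sum_bij (fun n _ => n + s) ?_ ?_ ?_ ?_
    · intro n hn; rw [Finset.mem_Ioc] at hn; rw [Finset.mem_Ico]; omega
    · intro a _ b _ hab; omega
    · intro b hb; rw [Finset.mem_Ico] at hb
      exact ⟨b - s, by rw [Finset.mem_Ioc]; omega, by omega⟩
    · intro n hn; rw [Finset.mem_Ioc] at hn
      have h1 : s ≤ n + s := by omega
      have h2 : n + s - s = n := by omega
      have h3 : n ≤ X := by omega
      simp [pf, h2, h3]
  exact e.symm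

/-- counting a set of primes by a weighted sum over the shifted points -/
theorem count_le {T N X s : ℕ} (hX : N ≤ X) (hs : N + s < 2 ^ T) (Z : ℕ → Prop) [DecidablePred Z]
    (W : ℕ → ℝ) (hW : ∀ x, 0 ≤ W x) (hZ : ∀ p, p.Prime → p ≤ N → Z p → 1 ≤ W (p + s)) :
    (((Icc 1 N).filter (fun p => p.Prime ∧ Z p)).card : ℝ) ≤
      ∑ x ∈ range (2 ^ T), pf X s x * W x := by
  have h1 : (((Icc 1 N).filter (fun p => p.Prime ∧ Z p)).card : ℝ) ≤
      ∑ p ∈ (Icc 1 N).filter (fun p => p.Prime ∧ Z p), pf X s (p + s) * W (p + s) := by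
    have : (((Icc 1 N).filter (fun p => p.Prime ∧ Z p)).card : ℝ) =
        ∑ p ∈ (Icc 1 N).filter (fun p => p.Prime ∧ Z p), (1 : ℝ) := by simp
    rw [this]
    refine Finset.sum_le_sum fun p hp => ?_
    rw [Finset.mem_filter, Finset.mem_Icc] at hp
    have h2 : p + s - s = p := by omega
    have h3 : pf X s (p + s) = 1 := by
      unfold pf; rw [if_pos]; rw [h2]; exact ⟨by omega, hp.2.1, by omega⟩
    rw [h3, one_mul]
    exact hZ p hp.2.1 hp.1.2 hp.2.2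
  refine h1.trans ?_
  rw [← Finset.sum_image (f := fun x => pf X s x * W x) (g := fun p => p + s)
    (s := (Icc 1 N).filter (fun p => p.Prime ∧ Z p)) (by intro a _ b _ h; simpa using h)]
  refine Finset.sum_le_sum_of_subset_of_nonneg ?_ ?_
  · intro x hx
    rw [Finset.mem_image] at hx
    obtain ⟨p, hp, rfl⟩ := hx
    rw [Finset.mem_filter, Finset.mem_Icc] at hp
    rw [Finset.mem_range]; omega
  · intro x _ _
    exact mul_nonneg (pf_nonneg _ _ _) (hW x)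

/-- the chain of comparisons -/
theorem chain {θ h H PI PW ρ ρ' d d' : ℝ} (hθ : 0 < θ) (hθ1 : θ ≤ 1 / 32) (hh : 0 ≤ h) (hH : 0 < H)
    (hρ : 0 ≤ ρ) (hρ' : 0 ≤ ρ') (hd' : 0 ≤ d')
    (h1 : |PI - h * ρ| ≤ 2 * θ * (h * ρ)) (h2 : |d - ρ| ≤ 2 * θ * ρ) (h3 : |d - d'| ≤ 4 * θ * d')
    (h4 : |d' - ρ'| ≤ 2 * θ * ρ') (h5 : |PW - H * ρ'| ≤ 2 * θ * (H * ρ')) :
    |PI * H - h * PW| ≤ 32 * θ * (h * PW) := by
  -- normalise
  obtain ⟨w, hw⟩ : ∃ w, PW = H * w := ⟨PW / H, by field_simp⟩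
  have h5' : |w - ρ'| ≤ 2 * θ * ρ' := by
    rw [hw, ← mul_sub, abs_mul, abs_of_pos hH] at h5
    have : H * |w - ρ'| ≤ H * (2 * θ * ρ') := by linarith
    exact le_of_mul_le_mul_left this hH
  have k1 : 2 * θ * ρ ≤ ρ / 16 := by nlinarith
  have k2 : 2 * θ * ρ' ≤ ρ' / 16 := by nlinarith
  have k3 : 4 * θ * d' ≤ d' / 8 := by nlinarith
  rw [abs_le] at h2 h3 h4 h5'
  have r' : ρ' ≤ 16 / 15 * w := by linarith
  have rd' : d' ≤ 17 / 16 * ρ' := by linarith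
  have rd : d ≤ 9 / 8 * d' := by linarith
  have rr : ρ ≤ 16 / 15 * d := by linarith
  have hw0 : 0 ≤ w := by linarith
  have t1 : ρ ≤ 3 / 2 * w := by linarith
  have t2 : d' ≤ 3 / 2 * w := by linarith
  have t3 : ρ' ≤ 3 / 2 * w := by linarith
  have u1 : θ * ρ ≤ θ * (3 / 2 * w) := mul_le_mul_of_nonneg_left t1 hθ.le
  have u2 : θ * d' ≤ θ * (3 / 2 * w) := mul_le_mul_of_nonneg_left t2 hθ.le
  have u3 : θ * ρ' ≤ θ * (3 / 2 * w) := mul_le_mul_of_nonneg_left t3 hθ.le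
  -- |ρ - w| ≤ 2θρ + 4θd' + 4θρ' ≤ 15 θ w
  have v1 : |ρ - w| ≤ 15 * (θ * w) := by
    rw [abs_le]; constructor <;> linarith
  have v2 : |h * ρ - h * w| ≤ h * (15 * (θ * w)) := by
    rw [← mul_sub, abs_mul, abs_of_nonneg hh]
    exact mul_le_mul_of_nonneg_left v1 hh
  have v3 : 2 * θ * (h * ρ) ≤ 3 * (h * (θ * w)) := by
    have := mul_le_mul_of_nonneg_left u1 hh
    nlinarith
  have v4 : |PI - h * w| ≤ 18 * (h * (θ * w)) := by
    have := abs_sub_le PI (h * ρ) (h * w)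
    linarith
  have e1 : PI * H - h * PW = H * (PI - h * w) := by rw [hw]; ring
  rw [e1, abs_mul, abs_of_pos hH, hw]
  have v5 : H * |PI - h * w| ≤ H * (18 * (h * (θ * w))) := mul_le_mul_of_nonneg_left v4 hH.le
  have v6 : 0 ≤ H * (h * (θ * w)) := by positivity
  nlinarith

end Pool.Agent.NH18.SC
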