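import Pool.Agent.NH18.SC.Abs

/-!
# Statements of the project SC (primes at almost all scales)
-/

namespace Pool.Agent.NH18.SC

open Finset

open scoped Classical in
/-- Maximal lemma, lower half: few points lie in a class of small density. -/
def S_maxL : Prop := ∀ (S : Finset ℕ) (g : ℕ → ℕ → ℕ) (f : ℕ → ℝ) (δ : ℝ) (R : ℕ), Coarse S g →
  0 ≤ δ →
  ∑ x ∈ S.filter (fun x => ∃ i ≤ R, av S g i f x < δ), f x ≤ δ * S.card

open scoped Classical in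
/-- Maximal lemma, upper half: few points lie in a class of large density. -/
def S_maxU : Prop := ∀ (S : Finset ℕ) (g : ℕ → ℕ → ℕ) (f : ℕ → ℝ) (Λ : ℝ) (i₀ R : ℕ), Coarse S g →
  0 < Λ →
  ∑ x ∈ S.filter (fun x => ∃ i, i₀ ≤ i ∧ i ≤ R ∧ Λ < av S g i f x), f x ≤ En S g f i₀ / Λ

/-- the class of level `i + m` of `x` has a subclass of level `i` of a different density -/
def Bad (S : Finset ℕ) (g : ℕ → ℕ → ℕ) (f : ℕ → ℝ) (θ : ℝ) (m i x : ℕ) : Prop :=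
  ∃ y ∈ S, g (i + m) y = g (i + m) x ∧
    θ * av S g (i + m) f x < |av S g i f y - av S g (i + m) f x|

open scoped Classical in
/-- Energy decrement: for most points only few levels are bad. -/
def S_badm : Prop := ∀ (S : Finset ℕ) (g : ℕ → ℕ → ℕ) (f : ℕ → ℝ) (θ δ Q : ℝ) (m i₀ R : ℕ), Coarse S g →
  0 < θ → 0 < δ → 0 < Q →
  (∀ i ≤ R, ∀ y ∈ S, ((cl S g (i + m) y).card : ℝ) ≤ Q * (cl S g i y).card) →
  ∑ x ∈ S, f x * ((Icc i₀ R).filter (fun i => Bad S g f θ m i x ∧ δ ≤ av S g (i + m) f x)).card ≤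
    Q / (δ * θ ^ 2) * m * En S g f i₀

open scoped Classical in
/-- Jump inequality: the densities of the classes of `x` change only at the levels in a small set. -/
def S_jump : Prop := ∀ (S : Finset ℕ) (g : ℕ → ℕ → ℕ) (f : ℕ → ℝ) (θ δ : ℝ) (i₀ R : ℕ), Coarse S g →
  (∀ x ∈ S, 0 ≤ f x) → 0 < θ → θ ≤ 1 / 2 → 0 < δ → i₀ ≤ R →
  ∃ J : ℕ → Finset ℕ,
    (∀ x ∈ S, ∀ i i', i₀ ≤ i → i ≤ i' → i' ≤ R → (∀ k ∈ J x, k < i ∨ i' ≤ k) →
      |av S g i f x - av S g i' f x| ≤ 4 * θ * av S g i' f x) ∧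
    ∑ x ∈ S, f x * (if ∀ i ∈ Icc i₀ R, δ ≤ av S g i f x then ((J x).card : ℝ) else 0) ≤
      2 / (δ * θ ^ 2) * En S g f i₀

/-- `pf X s n = 1` if `n = s + p` with a prime `p ≤ X`, and `0` otherwise -/
noncomputable def pf (X s n : ℕ) : ℝ := if s ≤ n ∧ (n - s).Prime ∧ n - s ≤ X then 1 else 0

/-- the dyadic block of length `2 ^ j` of `n` -/
def gI (j n : ℕ) : ℕ := n / 2 ^ j

/-- the number of primes in `(u, v]` -/
def P (u v : ℕ) : ℕ := ((Finset.Ioc u v).filter Nat.Prime).card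

/-- The energy of the primes at the scale `log N`. -/
def S_base : Prop := ∃ C : ℝ, 0 < C ∧ ∀ N : ℕ, 2 ≤ N → ∀ s T j : ℕ, Real.log N ≤ 2 ^ j →
  (2 : ℝ) ^ j ≤ 2 * Real.log N → j ≤ T → 2 ^ T ≤ 128 * N →
  En (range (2 ^ T)) gI (pf (16 * N) s) j ≤ C * N / Real.log N ^ 2

/-- The two grids. -/
def S_grid : Prop := ∀ a l p : ℕ, l + 3 ≤ 2 * a → 2 ^ l ≤ p →
  (∀ x, p < x + 2 ^ l → x ≤ p + 2 ^ l → x / 2 ^ (l + 3) = p / 2 ^ (l + 3)) ∨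
  (∀ x, p < x + 2 ^ l → x ≤ p + 2 ^ l →
    (x + (4 ^ a - 1) / 3) / 2 ^ (l + 3) = (p + (4 ^ a - 1) / 3) / 2 ^ (l + 3))

/-- From dyadic blocks to all intervals. -/
def S_equi : Prop := ∀ (K θ : ℝ) (m T s X p l j : ℕ), 1 ≤ K → 0 < θ → θ ≤ 1 → 32 * K / θ ≤ 2 ^ m →
  l + 3 = j + m → l + 3 ≤ T → 2 ^ l ≤ p → p + 2 ^ l ≤ X → p + s + 2 ^ l < 2 ^ T →
  (∀ x, p < x + 2 ^ l → x ≤ p + 2 ^ l → (x + s) / 2 ^ (l + 3) = (p + s) / 2 ^ (l + 3)) →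
  (∀ y ∈ range (2 ^ T), gI (l + 3) y = gI (l + 3) (p + s) →
    |av (range (2 ^ T)) gI j (pf X s) y - av (range (2 ^ T)) gI (l + 3) (pf X s) (p + s)| ≤
      θ * av (range (2 ^ T)) gI (l + 3) (pf X s) (p + s)) →
  ∀ x h : ℕ, p ≤ x + 2 ^ l → x + h ≤ p + 2 ^ l → (2 : ℝ) ^ l ≤ K * h →
    |(P x (x + h) : ℝ) - h * av (range (2 ^ T)) gI (l + 3) (pf X s) (p + s)| ≤
      2 * θ * (h * av (range (2 ^ T)) gI (l + 3) (pf X s) (p + s))

/-- the reduced residues modulo `q` -/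
def Sq (q : ℕ) : Finset ℕ := (range q).filter (fun a => a.Coprime q)

/-- the number of primes `p ≤ x` not dividing `Q` with `p ≡ a` modulo `q` -/
def pc (x Q q a : ℕ) : ℕ := ((Icc 1 x).filter (fun p => p.Prime ∧ p.Coprime Q ∧ p % q = a % q)).card

/-- The energy of the primes modulo `Q`. -/
def S_apbase : Prop := ∃ C : ℝ, 0 < C ∧ ∀ x : ℕ, 2 ≤ x → ∀ Q : ℕ, 1 ≤ Q →
  (Q.totient : ℝ) * Real.log x ≤ x →
  ∑ a ∈ Sq Q, ((pc x Q Q a : ℝ)) ^ 2 ≤ C * x ^ 2 / (Q.totient * Real.log x ^ 2)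

/-- The classes modulo a divisor. -/
def S_apfib : Prop := ∀ x q Q a : ℕ, 1 ≤ Q → q ∣ Q → a.Coprime Q →
  ((((Sq Q).filter (fun y => y % q = a % q)).card : ℝ) * q.totient = Q.totient) ∧
  (∑ y ∈ (Sq Q).filter (fun y => y % q = a % q), (pc x Q Q y : ℝ) = pc x Q q a)

end Pool.Agent.NH18.SC
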