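import Mathlib
import Pool.Agent.NH18.SC.Abs
import Pool.Agent.NH18.SC.Stm

/-!
# Maximal lemmas on a finite set with a chain of partitions
-/

namespace Pool.Agent.NH18.SC

open Finset

namespace Mx

open scoped Classical in
/-- the indicator of the last level at which `A` holds -/
noncomputable def hh (A : ℕ → ℕ → Prop) (R i x : ℕ) : ℝ :=
  if A i x ∧ ∀ j, i < j → j ≤ R → ¬ A j x then 1 else 0

theorem hh_nonneg (A : ℕ → ℕ → Prop) (R i x : ℕ) : 0 ≤ hh A R i x := by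
  unfold hh
  split_ifs <;> norm_num

theorem hh_of_not {A : ℕ → ℕ → Prop} {R i x : ℕ} (h : ¬ A i x) : hh A R i x = 0 := by
  unfold hh
  rw [if_neg]
  exact fun h1 => h h1.1

theorem hh_meas {S : Finset ℕ} {g : ℕ → ℕ → ℕ} (hc : Coarse S g) {A : ℕ → ℕ → Prop}
    (hA : ∀ i, ∀ x ∈ S, ∀ y ∈ S, g i x = g i y → (A i x ↔ A i y)) (R i : ℕ) :
    Meas S g i (hh A R i) := by
  intro x hx y hy hxy
  unfold hh
  have h1 : (A i x ∧ ∀ j, i < j → j ≤ R → ¬ A j x) ↔ (A i y ∧ ∀ j, i < j → j ≤ R → ¬ A j y) := by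
    have h2 : ∀ j, i ≤ j → (A j x ↔ A j y) := fun j hj =>
      hA j x hx y hy (coarse_le hc hj x hx y hy hxy)
    constructor
    · rintro ⟨h3, h4⟩
      exact ⟨(h2 i le_rfl).1 h3, fun j hj hR h5 => h4 j hj hR ((h2 j hj.le).2 h5)⟩
    · rintro ⟨h3, h4⟩
      exact ⟨(h2 i le_rfl).2 h3, fun j hj hR h5 => h4 j hj hR ((h2 j hj.le).1 h5)⟩
  by_cases h3 : A i x ∧ ∀ j, i < j → j ≤ R → ¬ A j x
  · rw [if_pos h3, if_pos (h1.1 h3)]
  · rw [if_neg h3, if_neg (fun h4 => h3 (h1.2 h4))]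

open scoped Classical in
theorem sum_hh (A : ℕ → ℕ → Prop) (i₀ R x : ℕ) : ∑ i ∈ Icc i₀ R, hh A R i x =
    if ∃ i, i₀ ≤ i ∧ i ≤ R ∧ A i x then 1 else 0 := by
  split_ifs with h
  · have hne : ((Icc i₀ R).filter fun i => A i x).Nonempty := by
      obtain ⟨i, h1, h2, h3⟩ := h
      exact ⟨i, mem_filter.2 ⟨mem_Icc.2 ⟨h1, h2⟩, h3⟩⟩
    obtain ⟨t, ht⟩ : ∃ t, t = ((Icc i₀ R).filter fun i => A i x).max' hne := ⟨_, rfl⟩
    have h1 : t ∈ (Icc i₀ R).filter fun i => A i x := by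
      rw [ht]
      exact max'_mem _ _
    have h2 : ∀ i ∈ (Icc i₀ R).filter fun i => A i x, i ≤ t := by
      intro i hi
      rw [ht]
      exact le_max' _ _ hi
    rw [mem_filter, mem_Icc] at h1
    rw [sum_eq_single t]
    · unfold hh
      rw [if_pos]
      refine ⟨h1.2, fun j hj hR hA => ?_⟩
      have := h2 j (mem_filter.2 ⟨mem_Icc.2 ⟨h1.1.1.trans hj.le, hR⟩, hA⟩)
      omega
    · intro i hi hne'
      unfold hh
      rw [if_neg]
      rintro ⟨h3, h4⟩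
      have h5 := h2 i (mem_filter.2 ⟨hi, h3⟩)
      exact h4 t (lt_of_le_of_ne h5 hne') h1.1.2 h1.2
    · intro h3
      exact absurd (mem_Icc.2 h1.1) h3
  · apply sum_eq_zero
    intro i hi
    rw [mem_Icc] at hi
    exact hh_of_not fun h1 => h ⟨i, hi.1, hi.2, h1⟩

open scoped Classical in
/-- the general maximal inequality -/
theorem gen (S : Finset ℕ) (f B : ℕ → ℝ) (A : ℕ → ℕ → Prop) (i₀ R : ℕ) (hB : ∀ x ∈ S, 0 ≤ B x)
    (h : ∀ i ∈ Icc i₀ R, ∑ x ∈ S, f x * hh A R i x ≤ ∑ x ∈ S, B x * hh A R i x) :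
    ∑ x ∈ S.filter (fun x => ∃ i, i₀ ≤ i ∧ i ≤ R ∧ A i x), f x ≤ ∑ x ∈ S, B x := by
  have key : ∀ F : ℕ → ℝ, ∑ i ∈ Icc i₀ R, ∑ x ∈ S, F x * hh A R i x =
      ∑ x ∈ S, F x * (if ∃ i, i₀ ≤ i ∧ i ≤ R ∧ A i x then 1 else 0) := by
    intro F
    rw [sum_comm]
    refine sum_congr rfl fun x _ => ?_
    rw [← mul_sum, sum_hh]
  have h1 : ∑ x ∈ S.filter (fun x => ∃ i, i₀ ≤ i ∧ i ≤ R ∧ A i x), f x =
      ∑ x ∈ S, f x * (if ∃ i, i₀ ≤ i ∧ i ≤ R ∧ A i x then 1 else 0) := by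
    rw [sum_filter]
    refine sum_congr rfl fun x _ => ?_
    split_ifs <;> simp
  rw [h1, ← key]
  refine (sum_le_sum h).trans ?_
  rw [key]
  refine sum_le_sum fun x hx => ?_
  split_ifs
  · rw [mul_one]
  · rw [mul_zero]
    exact hB x hx

end Mx

open Mx

theorem t_maxL : S_maxL := by
  intro S g f δ R hc hδ
  have hA : ∀ i, ∀ x ∈ S, ∀ y ∈ S, g i x = g i y → (av S g i f x < δ ↔ av S g i f y < δ) := by
    intro i x hx y hy hxy
    rw [av_meas S g i f x hx y hy hxy]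
  have h1 := gen S f (fun _ => δ) (fun i x => av S g i f x < δ) 0 R (fun _ _ => hδ) (by
    intro i _
    rw [sum_av S g i f _ (hh_meas hc hA R i)]
    refine sum_le_sum fun x _ => ?_
    by_cases h : av S g i f x < δ
    · exact mul_le_mul_of_nonneg_right h.le (hh_nonneg _ _ _ _)
    · rw [hh_of_not h, mul_zero, mul_zero])
  rw [sum_const, nsmul_eq_mul, mul_comm] at h1
  classical
  have h2 : S.filter (fun x => ∃ i ≤ R, av S g i f x < δ) =
      S.filter (fun x => ∃ i, 0 ≤ i ∧ i ≤ R ∧ av S g i f x < δ) := by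
    apply filter_congr
    intro x _
    constructor
    · rintro ⟨i, h3, h4⟩
      exact ⟨i, Nat.zero_le _, h3, h4⟩
    · rintro ⟨i, -, h3, h4⟩
      exact ⟨i, h3, h4⟩
  rw [h2]
  exact h1

theorem t_maxU : S_maxU := by
  intro S g f Λ i₀ R hc hΛ
  have hA : ∀ i, ∀ x ∈ S, ∀ y ∈ S, g i x = g i y → (Λ < av S g i f x ↔ Λ < av S g i f y) := by
    intro i x hx y hy hxy
    rw [av_meas S g i f x hx y hy hxy]
  have h1 := gen S f (fun x => av S g i₀ f x ^ 2 / Λ) (fun i x => Λ < av S g i f x) i₀ R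
    (fun x _ => by positivity) (by
    intro i hi
    rw [mem_Icc] at hi
    have hm := hh_meas hc hA R i
    rw [sum_av S g i f _ hm]
    have h2 := sum_sq_sub S g hc i₀ i hi.1 f _ hm
    have h3 : 0 ≤ ∑ x ∈ S, (av S g i₀ f x - av S g i f x) ^ 2 *
        hh (fun i x => Λ < av S g i f x) R i x :=
      sum_nonneg fun x _ => mul_nonneg (sq_nonneg _) (hh_nonneg _ _ _ _)
    have h4 : ∑ x ∈ S, av S g i f x * hh (fun i x => Λ < av S g i f x) R i x ≤
        (∑ x ∈ S, av S g i f x ^ 2 * hh (fun i x => Λ < av S g i f x) R i x) / Λ := by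
      rw [sum_div]
      refine sum_le_sum fun x _ => ?_
      by_cases h : Λ < av S g i f x
      · rw [le_div_iff₀ hΛ]
        have h5 := hh_nonneg (fun i x => Λ < av S g i f x) R i x
        have h6 : av S g i f x * Λ ≤ av S g i f x ^ 2 := by
          rw [pow_two]
          exact mul_le_mul_of_nonneg_left h.le (hΛ.le.trans h.le)
        calc av S g i f x * hh (fun i x => Λ < av S g i f x) R i x * Λ
            = av S g i f x * Λ * hh (fun i x => Λ < av S g i f x) R i x := by ring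
          _ ≤ _ := mul_le_mul_of_nonneg_right h6 h5
      · rw [hh_of_not h, mul_zero, mul_zero, zero_div]
    refine h4.trans ?_
    have h5 : ∑ x ∈ S, av S g i₀ f x ^ 2 / Λ * hh (fun i x => Λ < av S g i f x) R i x =
        (∑ x ∈ S, av S g i₀ f x ^ 2 * hh (fun i x => Λ < av S g i f x) R i x) / Λ := by
      rw [sum_div]
      refine sum_congr rfl fun x _ => ?_
      ring
    rw [h5]
    apply div_le_div_of_nonneg_right _ hΛ.le
    linarith)
  rw [← sum_div] at h1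
  exact h1

end Pool.Agent.NH18.SC
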